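import Pool.Agent.T9h57.TG.Unw

set_option autoImplicit false

/-! Systems of linear polynomials with signs: the main term. -/

namespace Pool.Agent.T9h57.TG

open Finset Filter
open Pool.Agent.H373R2.T7
open Pool.Agent.T9h57.TP (LD PR Fv SS lf vl_lf wS dS wd_S lamP_nat)

variable {k : ℕ}

lemma ev_big (C η : ℝ) (hη : 0 < η) : ∃ X₀ : ℕ, ∀ X : ℕ, X₀ ≤ X → C ≤ Real.log X ∧
    Real.log (Real.log X) ≤ η * Real.log X ∧ C ≤ X := by
  have h1 : Tendsto (fun n : ℕ => Real.log (n : ℝ)) atTop atTop :=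
    Real.tendsto_log_atTop.comp tendsto_natCast_atTop_atTop
  have h2 := Real.isLittleO_log_id_atTop.bound (c := η) hη
  have h3 := h1.eventually h2
  have h4 := h1.eventually_ge_atTop (max C 1)
  have h5 := (tendsto_natCast_atTop_atTop (R := ℝ)).eventually_ge_atTop C
  obtain ⟨X₀, h0⟩ := Filter.eventually_atTop.1 (h3.and (h4.and h5))
  refine ⟨X₀, fun X hX => ?_⟩
  obtain ⟨c3, c4, c5⟩ := h0 X hX
  have h6 : 1 ≤ Real.log (X : ℝ) := (le_max_right _ _).trans c4
  refine ⟨(le_max_left _ _).trans c4, ?_, c5⟩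
  rw [Real.norm_of_nonneg (Real.log_nonneg h6), id, Real.norm_of_nonneg (by linarith)] at c3
  exact c3

lemma asy (m : ℕ) (ε δ h K0 : ℝ) (hε : 0 < ε) (hδ : 0 < δ) (hδ1 : δ ≤ 1) (hh : 0 ≤ h) (hK : 0 ≤ K0) :
    ∃ X₀ : ℕ, ∀ X : ℕ, X₀ ≤ X → 1 ≤ Real.log (X / Real.log X ^ (m + 1)) ∧ ∀ P : ℝ, ε * X ≤ P → P ≤ X →
      1 ≤ Real.log P ∧ (1 - δ) * (P / Real.log P ^ m) ≤ (P - 2) / (Real.log X + h) ^ m ∧
      P / Real.log (X / Real.log X ^ (m + 1)) ^ m ≤ (1 + δ) * (P / Real.log P ^ m) ∧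
      K0 * (X / Real.log X ^ (m + 1)) ≤ δ * (P / Real.log P ^ m) := by
  obtain ⟨e, he⟩ : ∃ e, e = |Real.log ε| := ⟨_, rfl⟩
  have he0 : 0 ≤ e := by rw [he]; exact abs_nonneg _
  obtain ⟨η, hη⟩ : ∃ η : ℝ, η = δ / (2 * (m + 1) * (m + 1)) := ⟨_, rfl⟩
  have hη0 : 0 < η := by rw [hη]; positivity
  have hm0 : (0 : ℝ) ≤ m := Nat.cast_nonneg _
  have hηh : (m + 1) * η ≤ 1 / 2 := by
    rw [hη, mul_div_assoc', div_le_iff₀ (by positivity)]
    nlinarith
  obtain ⟨X₀, h0⟩ := ev_big (e + 2 + 2 * m * (e + h) / δ + K0 / (δ * ε) + 4 / (δ * ε)) η hη0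
  have t1 : 0 ≤ 2 * m * (e + h) / δ := by positivity
  have t2 : 0 ≤ K0 / (δ * ε) := by positivity
  have t3 : 0 ≤ 4 / (δ * ε) := by positivity
  refine ⟨X₀, fun X hX => ?_⟩
  obtain ⟨c1, c2, c3⟩ := h0 X hX
  obtain ⟨L, hL⟩ : ∃ L, L = Real.log (X : ℝ) := ⟨_, rfl⟩
  rw [← hL] at c1 c2 ⊢
  have hL2 : 2 ≤ L := by linarith
  have hL0 : 0 < L := by linarith
  have hX0 : (0 : ℝ) < X := by linarith
  have hlZ : Real.log (X / L ^ (m + 1)) = L - (m + 1) * Real.log L := by
    rw [Real.log_div hX0.ne' (by positivity), Real.log_pow, ← hL]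
    push_cast
    ring
  have hlZ2 : L * (1 - (m + 1) * η) ≤ Real.log (X / L ^ (m + 1)) := by
    rw [hlZ]
    have h3 := mul_le_mul_of_nonneg_left c2 (show (0 : ℝ) ≤ m + 1 by positivity)
    linarith
  have hlZ1 : 1 ≤ Real.log (X / L ^ (m + 1)) := by
    refine le_trans ?_ hlZ2
    nlinarith
  refine ⟨hlZ1, fun P hP1 hP2 => ?_⟩
  have hεX : 0 < ε * X := by positivity
  have hP0 : 0 < P := by linarith
  have hlP : Real.log P ≤ L := by
    rw [hL]
    exact Real.log_le_log hP0 hP2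
  have hlP2 : L - e ≤ Real.log P := by
    have h3 := Real.log_le_log hεX hP1
    rw [Real.log_mul hε.ne' hX0.ne', ← hL] at h3
    have h4 := neg_abs_le (Real.log ε)
    rw [← he] at h4
    linarith
  have hlP1 : 1 ≤ Real.log P := by linarith
  have hlPp : 0 < Real.log P := by linarith
  have hQ : ε * X / L ^ m ≤ P / Real.log P ^ m := by
    apply div_le_div₀ hP0.le hP1 (by positivity)
    exact pow_le_pow_left₀ hlPp.le hlP m
  have hQ0 : 0 < P / Real.log P ^ m := by positivity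
  refine ⟨hlP1, ?_, ?_, ?_⟩
  · -- lower bound
    have hB : 1 - m * ((e + h) / (L + h)) ≤ (Real.log P / (L + h)) ^ m := by
      have hLh : 0 < L + h := by linarith
      have h3 : 1 - (e + h) / (L + h) ≤ Real.log P / (L + h) := by
        rw [sub_le_iff_le_add, ← add_div, le_div_iff₀ hLh]
        linarith
      have h4 : -2 ≤ -((e + h) / (L + h)) := by
        rw [neg_le_neg_iff, div_le_iff₀ hLh]
        linarith
      have h5 := one_add_mul_le_pow h4 m
      have h6 : 0 ≤ 1 - (e + h) / (L + h) := by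
        rw [sub_nonneg, div_le_one hLh]
        linarith
      calc 1 - m * ((e + h) / (L + h)) = 1 + m * -((e + h) / (L + h)) := by ring
        _ ≤ (1 + -((e + h) / (L + h))) ^ m := h5
        _ ≤ (Real.log P / (L + h)) ^ m := by
            apply pow_le_pow_left₀ (by linarith)
            linarith
    have hB2 : m * ((e + h) / (L + h)) ≤ δ / 2 := by
      rw [mul_div_assoc', div_le_iff₀ (by linarith)]
      have h3 : 2 * m * (e + h) / δ ≤ L := by linarith
      rw [div_le_iff₀ hδ] at h3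
      nlinarith
    have hB3 : 1 - δ / 2 ≤ (Real.log P / (L + h)) ^ m := by linarith
    have hP3 : 2 ≤ (δ / 2) * P := by
      have h3 : 4 / (δ * ε) ≤ X := by linarith
      rw [div_le_iff₀ (by positivity)] at h3
      nlinarith
    rw [← sub_nonneg] at hB3
    have h7 : (P - 2) / (L + h) ^ m = (P / Real.log P ^ m) * ((1 - 2 / P) * (Real.log P / (L + h)) ^ m) := by
      rw [div_pow]
      field_simp
    rw [h7, mul_comm (1 - δ)]
    apply mul_le_mul_of_nonneg_left _ hQ0.le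
    have h8 : 1 - δ / 2 ≤ 1 - 2 / P := by
      have : 2 / P ≤ δ / 2 := by
        rw [div_le_iff₀ hP0]
        exact hP3
      linarith
    have h9 : 0 ≤ 1 - δ / 2 := by linarith
    calc 1 - δ ≤ (1 - δ / 2) * (1 - δ / 2) := by nlinarith
      _ ≤ (1 - 2 / P) * (Real.log P / (L + h)) ^ m := mul_le_mul h8 (by linarith) h9 (by linarith)
  · -- upper bound
    have h3 : Real.log P ^ m ≤ (1 + δ) * Real.log (X / L ^ (m + 1)) ^ m := by
      have h4 : 1 - m * ((m + 1) * η) ≤ (1 - (m + 1) * η) ^ m := by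
        have h5 := one_add_mul_le_pow (a := -((m + 1 : ℝ) * η)) (by linarith) m
        calc 1 - m * ((m + 1) * η) = 1 + m * -((m + 1 : ℝ) * η) := by ring
          _ ≤ (1 + -((m + 1 : ℝ) * η)) ^ m := h5
          _ = _ := by ring
      have h5 : m * ((m + 1) * η) ≤ δ / 2 := by
        rw [hη]
        have e1 : (m : ℝ) * ((m + 1) * (δ / (2 * (m + 1) * (m + 1)))) = (m / (m + 1)) * (δ / 2) := by
          field_simp
        rw [e1]
        have e2 : (m : ℝ) / (m + 1) ≤ 1 := by rw [div_le_one (by positivity)]; linarith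
        nlinarith
      calc Real.log P ^ m ≤ L ^ m := pow_le_pow_left₀ hlPp.le hlP m
        _ ≤ (1 + δ) * ((L * (1 - (m + 1) * η)) ^ m) := by
            rw [mul_pow]
            have h6 : 1 ≤ (1 + δ) * (1 - (m + 1) * η) ^ m := by nlinarith
            have h7 : 0 < L ^ m := by positivity
            nlinarith
        _ ≤ (1 + δ) * Real.log (X / L ^ (m + 1)) ^ m := by
            apply mul_le_mul_of_nonneg_left _ (by linarith)
            apply pow_le_pow_left₀ _ hlZ2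
            apply mul_nonneg hL0.le
            linarith
    have hZp : 0 < Real.log (X / L ^ (m + 1)) ^ m := by
      apply pow_pos
      linarith
    rw [div_le_iff₀ hZp]
    have h4 : 0 < Real.log P ^ m := by positivity
    calc P = (P / Real.log P ^ m) * Real.log P ^ m := by field_simp
      _ ≤ (P / Real.log P ^ m) * ((1 + δ) * Real.log (X / L ^ (m + 1)) ^ m) :=
          mul_le_mul_of_nonneg_left h3 hQ0.le
      _ = _ := by ring
  · calc K0 * (X / L ^ (m + 1)) = (K0 / (ε * L)) * (ε * X / L ^ m) := by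
          rw [pow_succ]
          field_simp
      _ ≤ δ * (ε * X / L ^ m) := by
          apply mul_le_mul_of_nonneg_right _ (by positivity)
          rw [div_le_iff₀ (by positivity)]
          have h3 : K0 / (δ * ε) ≤ L := by linarith
          rw [div_le_iff₀ (by positivity)] at h3
          linarith
      _ ≤ δ * (P / Real.log P ^ m) := mul_le_mul_of_nonneg_left hQ hδ.le

/-- the weight is bounded -/
lemma fz_le (s : Bool) (c : Fin k → ℕ) (σ : Fin k → ℤ) (a : Fin k → ℕ) {n : ℕ} (hn : 2 ≤ n)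
    (hv : ∀ i, 2 ≤ vz c σ a i n) (Λ : ℝ) (hΛ : 1 / 2 ≤ Λ) (h1 : s = true → Λ ≤ Real.log n)
    (h2 : ∀ i, Λ ≤ Real.log ((vz c σ a i n : ℤ) : ℝ)) : fz s c σ a n ≤ 1 / Λ ^ (k + s.toNat) := by
  have hΛ0 : 0 < Λ := by linarith
  unfold fz
  apply one_div_le_one_div_of_le (by positivity)
  have h3 : Λ ^ k ≤ ∏ i, Real.log ((vz c σ a i n : ℤ) : ℝ) := by
    calc Λ ^ k = ∏ _i : Fin k, Λ := by rw [prod_const, card_univ, Fintype.card_fin]
      _ ≤ _ := prod_le_prod (fun _ _ => hΛ0.le) (fun i _ => h2 i)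
  cases s with
  | true =>
    rw [if_pos rfl, pow_add, Bool.toNat_true, pow_one, mul_comm]
    exact mul_le_mul (h1 rfl) h3 (by positivity) (by linarith [h1 rfl])
  | false =>
    rw [if_neg (by simp), one_mul, Bool.toNat_false, add_zero]
    exact h3

lemma fz_ge (s : Bool) (c : Fin k → ℕ) (σ : Fin k → ℤ) (a : Fin k → ℕ) {n : ℕ} (hn : 2 ≤ n)
    (hv : ∀ i, 2 ≤ vz c σ a i n) (H : ℝ) (hH : 0 < H) (h1 : Real.log n ≤ H)
    (h2 : ∀ i, Real.log ((vz c σ a i n : ℤ) : ℝ) ≤ H) : 1 / H ^ (k + s.toNat) ≤ fz s c σ a n := by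
  have hl : ∀ i, (1 / 2 : ℝ) ≤ Real.log ((vz c σ a i n : ℤ) : ℝ) := fun i => log_two_le (hv i)
  have h5 : (1 / 2 : ℝ) ≤ Real.log n := by
    have := log_two_le (v := (n : ℤ)) (by exact_mod_cast hn)
    rwa [Int.cast_natCast] at this
  have h6 : 0 < ∏ i, Real.log ((vz c σ a i n : ℤ) : ℝ) := prod_pos fun i _ => by linarith [hl i]
  have h3 : ∏ i, Real.log ((vz c σ a i n : ℤ) : ℝ) ≤ H ^ k := by
    calc ∏ i, Real.log ((vz c σ a i n : ℤ) : ℝ) ≤ ∏ _i : Fin k, H :=
        prod_le_prod (fun i _ => by linarith [hl i]) (fun i _ => h2 i)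
      _ = H ^ k := by rw [prod_const, card_univ, Fintype.card_fin]
  unfold fz
  cases s with
  | true =>
    rw [if_pos rfl, pow_add, Bool.toNat_true, pow_one]
    apply one_div_le_one_div_of_le
    · exact mul_pos (by linarith) h6
    · rw [mul_comm]
      exact mul_le_mul h3 h1 (by linarith) (by positivity)
  | false =>
    rw [if_neg (by simp), one_mul, Bool.toNat_false, add_zero]
    exact one_div_le_one_div_of_le h6 h3

lemma vz_inj (c : Fin k → ℕ) (σ : Fin k → ℤ) (hσ : ∀ i, σ i = 1 ∨ σ i = -1) (a : Fin k → ℕ)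
    (hc : ∀ i, 1 ≤ c i) (i : Fin k) {n n' : ℕ} (h : vz c σ a i n = vz c σ a i n') : n = n' := by
  unfold vz at h
  have h2 : (1 : ℤ) ≤ c i := by exact_mod_cast hc i
  have h3 : (c i : ℤ) * n = c i * n' := by
    rcases hσ i with h6 | h6
    · rw [h6] at h; linarith
    · rw [h6] at h; linarith
  have h4 := mul_left_cancel₀ (by omega : (c i : ℤ) ≠ 0) h3
  exact_mod_cast h4

/-- the sum of the weights from above -/
lemma sum_fz_le (s : Bool) (c : Fin k → ℕ) (σ : Fin k → ℤ) (hσ : ∀ i, σ i = 1 ∨ σ i = -1) (a : Fin k → ℕ)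
    (hc : ∀ i, 1 ≤ c i) (y y' : ℕ) (hdom : dom c σ a y = Icc 2 y') (Z : ℝ) (hZ : 1 ≤ Real.log Z) (hZ0 : 0 < Z) :
    ∑ n ∈ dom c σ a y, fz s c σ a n ≤ (k + 1) * 2 ^ (k + 1) * Z + y' / Real.log Z ^ (k + s.toNat) := by
  classical
  have hd : ∀ n ∈ dom c σ a y, 2 ≤ n ∧ ∀ i, 2 ≤ vz c σ a i n := by
    intro n hn
    unfold dom at hn
    rw [mem_filter, mem_Icc] at hn
    exact ⟨hn.1.1, hn.2⟩
  set bad := (dom c σ a y).filter (fun n : ℕ => (n : ℝ) ≤ Z ∨ ∃ i, ((vz c σ a i n : ℤ) : ℝ) ≤ Z) with hbad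
  have hcard : (bad.card : ℝ) ≤ (k + 1) * Z := by
    have h1 : bad ⊆ (Icc 1 ⌊Z⌋₊) ∪ univ.biUnion (fun i : Fin k => (dom c σ a y).filter (fun n => ((vz c σ a i n : ℤ) : ℝ) ≤ Z)) := by
      intro n hn
      rw [hbad, mem_filter] at hn
      rw [mem_union, mem_biUnion, mem_Icc]
      rcases hn.2 with h | ⟨i, h⟩
      · left
        exact ⟨by have := (hd n hn.1).1; omega, Nat.le_floor h⟩
      · right
        exact ⟨i, mem_univ _, mem_filter.2 ⟨hn.1, h⟩⟩
    have h2 : ∀ i : Fin k, ((dom c σ a y).filter (fun n => ((vz c σ a i n : ℤ) : ℝ) ≤ Z)).card ≤ ⌊Z⌋₊ := by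
      intro i
      have h3 : ((dom c σ a y).filter (fun n => ((vz c σ a i n : ℤ) : ℝ) ≤ Z)).card ≤ (Icc 1 ⌊Z⌋₊).card := by
        apply card_le_card_of_injOn (fun n => (vz c σ a i n).toNat)
        · intro n hn
          rw [mem_coe, mem_filter] at hn
          have h4 := (hd n hn.1).2 i
          rw [mem_coe, mem_Icc]
          refine ⟨by simp only; omega, Nat.le_floor ?_⟩
          have h5 : (((vz c σ a i n).toNat : ℕ) : ℤ) = vz c σ a i n := Int.toNat_of_nonneg (by omega)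
          have h6 : (((vz c σ a i n).toNat : ℕ) : ℝ) = ((vz c σ a i n : ℤ) : ℝ) := by
            exact_mod_cast congrArg (fun t : ℤ => (t : ℝ)) h5
          rw [h6]
          exact hn.2
        · intro n hn n' hn' he
          rw [mem_coe, mem_filter] at hn hn'
          have h4 := (hd n hn.1).2 i
          have h5 := (hd n' hn'.1).2 i
          simp only at he
          exact vz_inj c σ hσ a hc i (by omega)
      rwa [Nat.card_Icc, Nat.add_sub_cancel] at h3
    have h3 : bad.card ≤ ⌊Z⌋₊ + k * ⌊Z⌋₊ := by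
      refine (card_le_card h1).trans ((card_union_le _ _).trans ?_)
      rw [Nat.card_Icc, Nat.add_sub_cancel]
      apply Nat.add_le_add_left
      refine card_biUnion_le.trans ((sum_le_sum fun i _ => h2 i).trans ?_)
      simp
    have h4 : (bad.card : ℝ) ≤ ((⌊Z⌋₊ + k * ⌊Z⌋₊ : ℕ) : ℝ) := by exact_mod_cast h3
    have h5 : ((⌊Z⌋₊ : ℕ) : ℝ) ≤ Z := Nat.floor_le hZ0.le
    refine h4.trans ?_
    push_cast
    nlinarith [Nat.cast_nonneg (α := ℝ) k]
  rw [← sum_filter_add_sum_filter_not (dom c σ a y) (fun n : ℕ => (n : ℝ) ≤ Z ∨ ∃ i, ((vz c σ a i n : ℤ) : ℝ) ≤ Z)]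
  apply add_le_add
  · rw [← hbad]
    have h1 : ∀ n ∈ bad, fz s c σ a n ≤ 2 ^ (k + 1) := by
      intro n hn
      rw [hbad, mem_filter] at hn
      obtain ⟨h2, h3⟩ := hd n hn.1
      have h4 := fz_le s c σ a h2 h3 (1 / 2) le_rfl (fun _ => by
        have := log_two_le (v := (n : ℤ)) (by exact_mod_cast h2)
        rwa [Int.cast_natCast] at this) (fun i => log_two_le (h3 i))
      refine h4.trans ?_
      rw [one_div_pow, one_div_one_div]
      apply pow_le_pow_right₀ (by norm_num)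
      cases s <;> simp
    refine (sum_le_sum h1).trans ?_
    rw [sum_const, nsmul_eq_mul]
    calc (bad.card : ℝ) * 2 ^ (k + 1) ≤ ((k + 1) * Z) * 2 ^ (k + 1) := mul_le_mul_of_nonneg_right hcard (by positivity)
      _ = _ := by ring
  · have h1 : ∀ n ∈ (dom c σ a y).filter (fun n : ℕ => ¬ ((n : ℝ) ≤ Z ∨ ∃ i, ((vz c σ a i n : ℤ) : ℝ) ≤ Z)),
        fz s c σ a n ≤ 1 / Real.log Z ^ (k + s.toNat) := by
      intro n hn
      rw [mem_filter] at hn
      obtain ⟨h2, h3⟩ := hd n hn.1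
      have h4 := hn.2
      push Not at h4
      exact fz_le s c σ a h2 h3 (Real.log Z) (by linarith) (fun _ => Real.log_le_log hZ0 h4.1.le)
        (fun i => Real.log_le_log hZ0 (h4.2 i).le)
    refine (sum_le_sum h1).trans ?_
    rw [sum_const, nsmul_eq_mul, mul_one_div]
    apply div_le_div_of_nonneg_right _ (by positivity)
    have h2 : ((dom c σ a y).filter (fun n : ℕ => ¬ ((n : ℝ) ≤ Z ∨ ∃ i, ((vz c σ a i n : ℤ) : ℝ) ≤ Z))).card ≤ y' := by
      refine (card_filter_le _ _).trans ?_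
      rw [hdom, Nat.card_Icc]
      omega
    exact_mod_cast h2

/-- the sum of the weights from below -/
lemma sum_fz_ge (s : Bool) (c : Fin k → ℕ) (σ : Fin k → ℤ) (a : Fin k → ℕ) (y y' : ℕ)
    (hdom : dom c σ a y = Icc 2 y') (H : ℝ) (hH : 0 < H) (hlog : ∀ n ∈ dom c σ a y, Real.log n ≤ H ∧
      ∀ i, Real.log ((vz c σ a i n : ℤ) : ℝ) ≤ H) (hy' : 1 ≤ y') :
    ((y' : ℝ) - 1) / H ^ (k + s.toNat) ≤ ∑ n ∈ dom c σ a y, fz s c σ a n := by
  have h1 : ∀ n ∈ dom c σ a y, 1 / H ^ (k + s.toNat) ≤ fz s c σ a n := by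
    intro n hn
    have hn' := hn
    unfold dom at hn
    rw [mem_filter, mem_Icc] at hn
    exact fz_ge s c σ a hn.1.1 hn.2 H hH (hlog n hn').1 (hlog n hn').2
  refine le_trans (le_of_eq ?_) (sum_le_sum h1)
  rw [sum_const, nsmul_eq_mul, mul_one_div, hdom, Nat.card_Icc]
  congr 1
  rw [Nat.cast_sub (by omega)]
  push_cast
  ring

/-- the number of the arguments with positive values -/
lemma pos_dom (c : Fin k → ℕ) (σ : Fin k → ℤ) (hσ : ∀ i, σ i = 1 ∨ σ i = -1) (a : Fin k → ℕ)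
    (ha : ∀ i, 1 ≤ a i) (hc : ∀ i, 1 ≤ c i) (y y' : ℕ) (hy' : y' ≤ y) (hdom : dom c σ a y = Icc 2 y')
    (hP : 3 ≤ posCount (lf c) σ a y) :
    y' ≤ posCount (lf c) σ a y ∧ posCount (lf c) σ a y ≤ y' + 1 := by
  classical
  have hmono : ∀ n m : ℕ, 1 ≤ n → n < m → (∀ i, 1 ≤ vz c σ a i m) → ∀ i, 2 ≤ vz c σ a i n := by
    intro n m hn hnm h i
    have h1 := h i
    unfold vz at h1 ⊢
    have h2 : (1 : ℤ) ≤ c i := by exact_mod_cast hc i
    have h3 : (1 : ℤ) ≤ a i := by exact_mod_cast ha i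
    have h4 : (1 : ℤ) ≤ n := by exact_mod_cast hn
    have h5 : (n : ℤ) + 1 ≤ m := by exact_mod_cast hnm
    rcases hσ i with h6 | h6
    · rw [h6]; nlinarith
    · rw [h6] at h1 ⊢
      nlinarith
  have hPd : posCount (lf c) σ a y = ((Icc 1 y).filter (fun n => ∀ i, 1 ≤ vz c σ a i n)).card := by
    unfold posCount
    simp only [vl_lf]
    rfl
  -- some element at least `P`
  have hge : ∃ m ∈ (Icc 1 y).filter (fun n => ∀ i, 1 ≤ vz c σ a i n), posCount (lf c) σ a y ≤ m := by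
    by_contra hcon
    push Not at hcon
    have h1 : (Icc 1 y).filter (fun n => ∀ i, 1 ≤ vz c σ a i n) ⊆ Icc 1 (posCount (lf c) σ a y - 1) := by
      intro n hn
      have h2 := hcon n hn
      rw [mem_filter, mem_Icc] at hn
      rw [mem_Icc]
      omega
    have h2 := card_le_card h1
    rw [← hPd, Nat.card_Icc] at h2
    omega
  obtain ⟨m, hm, hPm⟩ := hge
  rw [mem_filter, mem_Icc] at hm
  have h1 : m - 1 ∈ dom c σ a y := by
    unfold dom
    rw [mem_filter, mem_Icc]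
    exact ⟨⟨by omega, by omega⟩, hmono (m - 1) m (by omega) (by omega) hm.2⟩
  rw [hdom, mem_Icc] at h1
  refine ⟨?_, by
    by_contra hcon
    have h2 : (Icc 1 y).filter (fun n => ∀ i, 1 ≤ vz c σ a i n) ⊆ Icc 1 (y' + 1) := by
      intro n hn
      rw [mem_filter, mem_Icc] at hn
      rw [mem_Icc]
      refine ⟨hn.1.1, ?_⟩
      by_contra h3
      have h4 : n - 1 ∈ dom c σ a y := by
        unfold dom
        rw [mem_filter, mem_Icc]
        exact ⟨⟨by omega, by omega⟩, hmono (n - 1) n (by omega) (by omega) hn.2⟩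
      rw [hdom, mem_Icc] at h4
      omega
    have h3 := card_le_card h2
    rw [← hPd, Nat.card_Icc] at h3
    omega⟩
  have h2 : Icc 1 y' ⊆ (Icc 1 y).filter (fun n => ∀ i, 1 ≤ vz c σ a i n) := by
    intro n hn
    rw [mem_Icc] at hn
    have h3 : y' ∈ dom c σ a y := by rw [hdom, mem_Icc]; omega
    unfold dom at h3
    rw [mem_filter] at h3
    rw [mem_filter, mem_Icc]
    refine ⟨⟨hn.1, by omega⟩, fun i => ?_⟩
    have := vz_pos_of_dom c σ hσ a ha hc y' h3.2 n hn.1 hn.2 i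
    omega
  have h3 := card_le_card h2
  rwa [← hPd, Nat.card_Icc, Nat.add_sub_cancel] at h3

end Pool.Agent.T9h57.TG
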