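import Pool.Agent.T9h57.TG.GMain
import Pool.Agent.T9h57.SB.Few

set_option autoImplicit false

/-! Systems of linear polynomials with signs: all residue classes of the moduli which are not divisible by one of few
integers, all of them with a large radical. -/

namespace Pool.Agent.T9h57.TG

open Finset
open Pool.Agent.R460.GS
open Pool.Agent.T9h57.GP (log_ge_one)
open Pool.Agent.T9h57.GL
open Pool.Agent.T9h57.PK (rad)
open Pool.Agent.T9h57.TP (Reg pt al)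
open Pool.Agent.Y883.GJ
open Pool.Agent.Y614.GJ.Core (ev_log)

variable {k : ℕ}

/-- the tuples in the given classes are values of `pt` -/
lemma mem_pt (X : ℕ) (q r : Fin k → ℕ) (b : Fin k → ℤ) (hq : ∀ i, 1 ≤ q i)
    (hr : ∀ i, r i = (b i % (q i : ℤ)).toNat) (a : Fin k → ℕ)
    (ha : ∀ i, 1 ≤ a i ∧ a i ≤ X ∧ (a i : ℤ) ≡ b i [ZMOD q i]) :
    ∃ m ∈ TP.box X q, pt r q m = a := by
  have har : ∀ i, a i % q i = r i := by
    intro i
    have h1 := (ha i).2.2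
    unfold Int.ModEq at h1
    have hq0 : (0 : ℤ) < q i := by exact_mod_cast hq i
    have h2 := Int.emod_nonneg (b i) hq0.ne'
    have h3 : ((a i % q i : ℕ) : ℤ) = b i % (q i : ℤ) := by
      rw [← h1]
      push_cast
      rfl
    rw [hr i, ← h3, Int.toNat_natCast]
  refine ⟨fun i => a i / q i + 1, ?_, ?_⟩
  · unfold Pool.Agent.T9h57.TP.box
    rw [Fintype.mem_piFinset]
    intro i
    rw [mem_Icc]
    exact ⟨Nat.le_add_left 1 _, Nat.add_le_add_right (Nat.div_le_div_right (ha i).2.1) 1⟩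
  · funext i
    unfold pt al
    rw [Nat.add_sub_cancel, ← har i]
    exact Nat.mod_add_div _ _

open Classical in
theorem tg_few (s : Bool) (c : Fin k → ℕ) (hc : ∀ i, 1 ≤ c i) (hks : 1 ≤ k + s.toNat)
    (σ : Fin k → ℤ) (hσ : ∀ i, σ i = 1 ∨ σ i = -1) (ε : ℝ) (hε : 0 < ε)
    (ρ : ℝ) (hρ : 0 < ρ) (hρ1 : ρ ≤ 1 / 3) (A C : ℕ) :
    ∃ e : ℕ, ∀ S : ℕ, ∃ X₀ : ℕ, ∀ X : ℕ, X₀ ≤ X → ∃ D : Finset ℕ, (D.card : ℝ) ≤ Real.log X ^ e ∧
      (∀ d ∈ D, Real.log X ^ S < (rad d : ℝ)) ∧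
      ∀ q : Fin k → ℕ, (∀ i, 1 ≤ q i ∧ (q i : ℝ) ≤ (X : ℝ) ^ (2 / 3 - ρ) ∧ ∀ d ∈ D, ¬ d ∣ q i) → ∀ b : Fin k → ℤ,
        ({a : Fin k → ℕ | (∀ i, 1 ≤ a i ∧ a i ≤ X ∧ (a i : ℤ) ≡ b i [ZMOD q i]) ∧
          ¬ GoodZ s c σ ε C X a}.ncard : ℝ) ≤ (∏ i, (X : ℝ) / q i) / Real.log X ^ A := by
  obtain ⟨M, hM⟩ : ∃ M, M = ∑ i, c i := ⟨_, rfl⟩
  have hcM : ∀ i, c i ≤ M := by
    intro i
    rw [hM]
    exact single_le_sum (f := c) (fun _ _ => Nat.zero_le _) (mem_univ i)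
  obtain ⟨C₀, U₂, h⟩ := tg_main s c hc hks M hcM σ hσ ε hε ρ hρ hρ1 A C
  have hρ2 : 0 < ρ / 2 := by positivity
  obtain ⟨M2, hM2⟩ : ∃ M2, M2 = M + 2 := ⟨_, rfl⟩
  have hM1 : 1 ≤ M2 := by omega
  obtain ⟨C₄, Nd, hd⟩ := mL3 Pool.Agent.Y812.GJ.l2 (U₂ + 1) hρ2
  refine ⟨C₄ + C₀ + 1, fun S => ?_⟩
  obtain ⟨N₁, h1⟩ := h (S + C₀ + 1)
  obtain ⟨N₂, h2⟩ := E2_rad S C₀ (U₂ + 1) hρ2
  obtain ⟨N₃, h3⟩ := nc_LA (U₂ + 1)
  obtain ⟨N₄, h4⟩ := Filter.eventually_atTop.1 (ev_log C₀ (s := ρ / 2) hρ2 2)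
  obtain ⟨N₅, h5⟩ := Filter.eventually_atTop.1 (ev_log 1 (s := 1) (by norm_num) (2 ^ (C₄ + C₀) + M2))
  refine ⟨N₁ + N₂ + N₃ + N₄ + N₅ + Nd + 3, fun X hX =>
    ⟨E2 (M2 * X) (U₂ + 1) (S + C₀ + 1) C₀ (ρ / 2), ?_, ?_, ?_⟩⟩
  all_goals
    have hXM : X ≤ M2 * X := Nat.le_mul_of_pos_left X hM1
    have hX0 : (0 : ℝ) < X := by
      have : 0 < X := by omega
      exact_mod_cast this
    have hM0 : (1 : ℝ) ≤ M2 := by exact_mod_cast hM1
  · have h6 := E2_card (N := M2 * X) (U := U₂ + 1) (K := S + C₀ + 1) (C := C₀) (C₄ := C₄) (ρ := ρ / 2)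
      (log_ge_one (by omega)) (E1_card _ (fun Ψ hΨ => hd (M2 * X) (by omega) Ψ (fun ψ hψ => hΨ ψ hψ)))
    refine h6.trans ?_
    obtain ⟨h7, -⟩ := h5 X (by omega)
    have hp : (0 : ℝ) < 2 ^ (C₄ + C₀) := by positivity
    have h8 : Real.log ((M2 * X : ℕ) : ℝ) ≤ 2 * Real.log X := by
      push_cast
      rw [Real.log_mul (by positivity) hX0.ne']
      have h9 : Real.log M2 ≤ M2 := (Real.log_le_sub_one_of_pos (by linarith)).trans (by linarith)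
      linarith
    have h9 : 0 ≤ Real.log ((M2 * X : ℕ) : ℝ) := Real.log_natCast_nonneg _
    calc Real.log ((M2 * X : ℕ) : ℝ) ^ (C₄ + C₀) ≤ (2 * Real.log X) ^ (C₄ + C₀) := pow_le_pow_left₀ h9 h8 _
      _ = 2 ^ (C₄ + C₀) * Real.log X ^ (C₄ + C₀) := mul_pow _ _ _
      _ ≤ Real.log X * Real.log X ^ (C₄ + C₀) :=
          mul_le_mul_of_nonneg_right (by linarith) (pow_nonneg (Real.log_natCast_nonneg _) _)
      _ = Real.log X ^ (C₄ + C₀ + 1) := by ring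
  · intro d hdD
    refine lt_of_le_of_lt ?_ (h2 (M2 * X) (by omega) d hdD)
    apply pow_le_pow_left₀ (Real.log_natCast_nonneg _)
    apply Real.log_le_log hX0
    exact_mod_cast hXM
  · intro q hq b
    have hXMr : (X : ℝ) ≤ ((M2 * X : ℕ) : ℝ) := by exact_mod_cast hXM
    have hN0 : (0 : ℝ) < ((M2 * X : ℕ) : ℝ) := by linarith
    have hX1 : (1 : ℝ) ≤ X := by
      have : 1 ≤ X := by omega
      exact_mod_cast this
    obtain ⟨h5', h6⟩ := h4 (M2 * X) (by omega)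
    obtain ⟨r, hr⟩ : ∃ r : Fin k → ℕ, r = fun i => (b i % (q i : ℤ)).toNat := ⟨_, rfl⟩
    have hReg : Reg M X C₀ (S + C₀ + 1) U₂ ρ r q := by
      intro i
      obtain ⟨hq1, hq2, hq3⟩ := hq i
      have hq' : (q i : ℝ) ≤ ((M2 * X : ℕ) : ℝ) ^ (2 / 3 - ρ) :=
        hq2.trans (Real.rpow_le_rpow hX0.le hXMr (by linarith))
      refine ⟨hq1, hq2, ?_, ?_⟩
      · rw [← hM2]
        refine reg_of h5' (by omega) hq1 hρ2 ?_ (h3 (M2 * X) (by omega)) hq3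
        calc (q i : ℝ) * Real.log ((M2 * X : ℕ) : ℝ) ^ C₀ ≤
            ((M2 * X : ℕ) : ℝ) ^ (2 / 3 - ρ) * ((M2 * X : ℕ) : ℝ) ^ (ρ / 2) := by gcongr
          _ = ((M2 * X : ℕ) : ℝ) ^ (2 / 3 - ρ / 2) := by
              rw [← Real.rpow_add hN0]
              congr 1
              ring
      · rw [hr]
        have hq0 : (0 : ℤ) < q i := by exact_mod_cast hq1
        have h7 := Int.emod_lt_of_pos (b i) hq0
        have h8 := Int.emod_nonneg (b i) hq0.ne'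
        simp only
        omega
    have h7 := h1 X (by omega) r q hReg
    refine le_trans ?_ h7
    obtain ⟨G, hG⟩ : ∃ G, G = (TP.box X q).filter (fun m => (∀ i, 1 ≤ pt r q m i) ∧ ¬ GoodZ s c σ ε C X (pt r q m)) :=
      ⟨_, rfl⟩
    rw [← hG]
    have hsub : {a : Fin k → ℕ | (∀ i, 1 ≤ a i ∧ a i ≤ X ∧ (a i : ℤ) ≡ b i [ZMOD q i]) ∧
        ¬ GoodZ s c σ ε C X a} ⊆ ((G.image (pt r q) : Finset (Fin k → ℕ)) : Set (Fin k → ℕ)) := by
      rintro a ⟨ha1, ha2⟩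
      obtain ⟨m, hm1, hm2⟩ := mem_pt X q r b (fun i => (hq i).1) (fun i => by rw [hr]) a ha1
      rw [coe_image]
      refine ⟨m, ?_, hm2⟩
      rw [mem_coe, hG, mem_filter, hm2]
      exact ⟨hm1, fun i => (ha1 i).1, ha2⟩
    have h8 := Set.ncard_le_ncard hsub (finite_toSet _)
    rw [Set.ncard_coe_finset] at h8
    exact_mod_cast h8.trans card_image_le

end Pool.Agent.T9h57.TG
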