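import Pool.Agent.T9h57.TG.Tup

set_option autoImplicit false

/-! Systems of linear polynomials with signs, with constant terms in the residue classes of regular moduli: almost all
systems. -/

namespace Pool.Agent.T9h57.TG

open Finset Filter
open Pool.Agent.H373R2.T7
open Pool.Agent.T9h57.GP (RegL)
open Pool.Agent.T9h57.TP (LD PR Fv SS lf vl_lf wS dS wd_S lamP_nat Reg box pt deg_one cls_main al_le q_le)
open Pool.Agent.Y614.GJ.Core (ev_log)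

variable {k : ℕ}

/-- the union bound -/
lemma union_bd (X : ℕ) (c r q : Fin k → ℕ) (hq : ∀ i, 1 ≤ q i) (hc : ∀ i, 1 ≤ c i) (L : ℝ) (hL : 1 ≤ L) (A U : ℕ)
    (hVi : ∀ i, L ^ (A + 2) ≤ ((X / q i + 1 : ℕ) : ℝ)) (hU : A + 2 ≤ U) (PV : ℝ)
    (hPV : PV = ∏ i, ((X / q i + 1 : ℕ) : ℝ)) (S G : Finset (Fin k → ℕ))
    (hS : (S.card : ℝ) ≤ PV / L ^ U) (hG : ∀ m ∈ G, m ∈ box X q)
    (hsub : ∀ m ∈ G, m ∉ S → ∃ i j, i ≠ j ∧ c i * pt r q m j = c j * pt r q m i) :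
    (G.card : ℝ) ≤ (1 + k * k) * (PV / L ^ (A + 2)) := by
  classical
  have hPV0 : 0 ≤ PV := by rw [hPV]; exact prod_nonneg fun _ _ => Nat.cast_nonneg _
  obtain ⟨D, hD⟩ : ∃ D : Fin k × Fin k → Finset (Fin k → ℕ), D = fun ij =>
    (box X q).filter (fun m => c ij.1 * pt r q m ij.2 = c ij.2 * pt r q m ij.1) := ⟨_, rfl⟩
  obtain ⟨I, hI⟩ : ∃ I : Finset (Fin k × Fin k), I = univ.filter (fun ij : Fin k × Fin k => ij.1 ≠ ij.2) := ⟨_, rfl⟩
  have hdeg : ∀ ij ∈ I, ((D ij).card : ℝ) ≤ PV / L ^ (A + 2) := by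
    intro ij hij
    rw [hI, mem_filter] at hij
    have h6 := deg_one X r q c hq hc ij.1 ij.2 hij.2
    rw [← hPV] at h6
    have h7 : (((box X q).filter (fun m => c ij.1 * pt r q m ij.2 = c ij.2 * pt r q m ij.1)).card : ℝ) =
        ((D ij).card : ℝ) := by rw [hD]
    rw [h7] at h6
    rw [le_div_iff₀ (by positivity), mul_comm]
    exact (mul_le_mul_of_nonneg_right (hVi ij.1) (Nat.cast_nonneg _)).trans h6
  have hcov : G ⊆ S ∪ I.biUnion D := by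
    intro m hm
    rw [mem_union, mem_biUnion]
    by_cases h : m ∈ S
    · left; exact h
    · right
      obtain ⟨i, j, hij, he⟩ := hsub m hm h
      refine ⟨(i, j), by rw [hI, mem_filter]; exact ⟨mem_univ _, hij⟩, ?_⟩
      rw [hD]
      exact mem_filter.2 ⟨hG m hm, he⟩
  have h1 : G.card ≤ S.card + ∑ ij ∈ I, (D ij).card := by
    refine (card_le_card hcov).trans ((card_union_le _ _).trans ?_)
    exact Nat.add_le_add_left card_biUnion_le _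
  have h2 : (G.card : ℝ) ≤ (S.card : ℝ) + ∑ ij ∈ I, ((D ij).card : ℝ) := by
    calc (G.card : ℝ) ≤ ((S.card + ∑ ij ∈ I, (D ij).card : ℕ) : ℝ) := Nat.cast_le.2 h1
      _ = _ := by rw [Nat.cast_add, Nat.cast_sum]
  have h3 : ∑ ij ∈ I, ((D ij).card : ℝ) ≤ (k * k) * (PV / L ^ (A + 2)) := by
    refine (sum_le_sum hdeg).trans ?_
    rw [sum_const, nsmul_eq_mul]
    apply mul_le_mul_of_nonneg_right _ (by positivity)
    have h9 : I.card ≤ k * k := by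
      rw [hI]
      refine (card_filter_le _ _).trans ?_
      rw [card_univ, Fintype.card_prod, Fintype.card_fin]
    calc (I.card : ℝ) ≤ ((k * k : ℕ) : ℝ) := Nat.cast_le.2 h9
      _ = _ := by push_cast; ring
  have h4 : PV / L ^ U ≤ PV / L ^ (A + 2) := by
    apply div_le_div_of_nonneg_left hPV0 (by positivity)
    exact pow_le_pow_right₀ hL hU
  have h5 : (1 + (k : ℝ) * k) * (PV / L ^ (A + 2)) = PV / L ^ (A + 2) + (k * k) * (PV / L ^ (A + 2)) := by ring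
  rw [h5]
  linarith

lemma fin_bd (X : ℕ) (q : Fin k → ℕ) (hq : ∀ i, 1 ≤ q i) (hqX : ∀ i, q i ≤ X) (L : ℝ) (hL : 1 ≤ L) (A : ℕ)
    (hLb : 2 ^ k * (2 + k * k) ≤ L) :
    (1 + k * k) * ((∏ i, ((X / q i + 1 : ℕ) : ℝ)) / L ^ (A + 2)) ≤ (∏ i, (X : ℝ) / q i) / L ^ A := by
  obtain ⟨W, hW⟩ : ∃ W, W = ∏ i, (X : ℝ) / q i := ⟨_, rfl⟩
  have hW0 : 0 ≤ W := by rw [hW]; exact prod_nonneg fun i _ => by positivity
  obtain ⟨PV, hPV⟩ : ∃ PV, PV = ∏ i, ((X / q i + 1 : ℕ) : ℝ) := ⟨_, rfl⟩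
  have hPV2 : PV ≤ 2 ^ k * W := by
    rw [hPV, hW]
    calc ∏ i, ((X / q i + 1 : ℕ) : ℝ) ≤ ∏ i, (2 * ((X : ℝ) / q i)) := by
          apply Finset.prod_le_prod (fun _ _ => Nat.cast_nonneg _)
          intro i _
          have hqi0 : (0 : ℝ) < q i := by exact_mod_cast hq i
          have h6 : ((X / q i : ℕ) : ℝ) ≤ X / q i := Nat.cast_div_le
          have h7 : 1 ≤ (X : ℝ) / q i := by
            rw [le_div_iff₀ hqi0, one_mul]
            exact_mod_cast hqX i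
          push_cast
          linarith
      _ = 2 ^ k * ∏ i, (X : ℝ) / q i := by
          rw [prod_mul_distrib, prod_const, card_univ, Fintype.card_fin]
  rw [← hW, ← hPV]
  have hL0 : 0 < L := by linarith
  calc (1 + (k : ℝ) * k) * (PV / L ^ (A + 2)) ≤ (1 + k * k) * (2 ^ k * W / L ^ (A + 2)) := by
        apply mul_le_mul_of_nonneg_left _ (by positivity)
        exact div_le_div_of_nonneg_right hPV2 (by positivity)
    _ = (2 ^ k * (1 + k * k) / L ^ 2) * (W / L ^ A) := by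
        rw [pow_add]
        field_simp
    _ ≤ 1 * (W / L ^ A) := by
        apply mul_le_mul_of_nonneg_right _ (by positivity)
        rw [div_le_one (by positivity)]
        have h7 : (2 : ℝ) ^ k * (1 + k * k) ≤ 2 ^ k * (2 + k * k) := by
          apply mul_le_mul_of_nonneg_left _ (by positivity)
          linarith
        nlinarith
    _ = _ := one_mul _

set_option maxHeartbeats 1000000 in
open Classical in
theorem tg_main (s : Bool) (c : Fin k → ℕ) (hc : ∀ i, 1 ≤ c i) (hks : 1 ≤ k + s.toNat) (M : ℕ) (hM : ∀ i, c i ≤ M)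
    (σ : Fin k → ℤ) (hσ : ∀ i, σ i = 1 ∨ σ i = -1) (ε : ℝ) (hε : 0 < ε)
    (ρ : ℝ) (hρ : 0 < ρ) (hρ1 : ρ ≤ 1 / 3) (A C : ℕ) :
    ∃ C₀ U₂ : ℕ, ∀ K : ℕ, ∃ X₀ : ℕ, ∀ X : ℕ, X₀ ≤ X → ∀ r q : Fin k → ℕ, Reg M X C₀ K U₂ ρ r q →
      (((box X q).filter (fun m => (∀ i, 1 ≤ pt r q m i) ∧ ¬ GoodZ s c σ ε C X (pt r q m))).card : ℝ) ≤
        (∏ i, (X : ℝ) / q i) / Real.log X ^ A := by
  obtain ⟨U, hU⟩ : ∃ U, U = A + C + k + 6 := ⟨_, rfl⟩
  obtain ⟨C₀, U₂, h0⟩ := cls_main c hc σ hσ (wS s) (dS s) (wd_S s _ (sysC_pos _)) M hM U ρ hρ hρ1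
  refine ⟨C₀, U₂, fun K => ?_⟩
  obtain ⟨B, hB⟩ := h0 K
  obtain ⟨E1, hE1⟩ : ∃ E1, E1 = B + U + k + 4 := ⟨_, rfl⟩
  obtain ⟨N₁, h1⟩ := hB (E1 + 1)
  obtain ⟨N₂, h2⟩ := Filter.eventually_atTop.1 (ev_log (A + 2) (s := 1 / 3) (by norm_num)
    (2 ^ k * (2 + k * k) + 100))
  obtain ⟨N₃, h3⟩ := good_of s c hc hks M hM σ hσ ε hε C U E1 (by omega) (by omega)
  refine ⟨N₁ + N₂ + N₃ + 4, fun X hX r q hR => ?_⟩
  have hX1 : 1 ≤ X := by omega
  have hX0 : (0 : ℝ) < X := by exact_mod_cast hX1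
  have hX1r : (1 : ℝ) ≤ X := by exact_mod_cast hX1
  obtain ⟨hLb, hLp⟩ := h2 X (by omega)
  obtain ⟨L, hLd⟩ : ∃ L, L = Real.log (X : ℝ) := ⟨_, rfl⟩
  have p4 : (0 : ℝ) ≤ 2 ^ k * (2 + k * k) := by positivity
  have c1 := h1 X (by omega)
  have c3 := h3 X (by omega)
  rw [← hLd] at hLb hLp c1 c3 ⊢
  have hL100 : 100 ≤ L := by linarith
  have hL1 : 1 ≤ L := by linarith
  have hL0 : 0 < L := by linarith
  -- the parameter `z`
  obtain ⟨z, hz⟩ : ∃ z, z = ⌈L ^ E1⌉₊ := ⟨_, rfl⟩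
  have hzlo : L ^ E1 ≤ z := by rw [hz]; exact Nat.le_ceil _
  have hL1B : 1 ≤ L ^ E1 := one_le_pow₀ hL1
  have hzhi : (z : ℝ) ≤ L ^ (E1 + 1) := by
    have := Nat.ceil_lt_add_one (show 0 ≤ L ^ E1 by positivity)
    rw [← hz] at this
    calc (z : ℝ) ≤ L ^ E1 + 1 := this.le
      _ ≤ L ^ E1 + L ^ E1 := by linarith
      _ = 2 * L ^ E1 := by ring
      _ ≤ L * L ^ E1 := mul_le_mul_of_nonneg_right (by linarith) (by positivity)
      _ = L ^ (E1 + 1) := by ring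
  obtain ⟨S, hS1, hS2, hS3⟩ := c1 z ((pow_le_pow_right₀ hL1 (by omega)).trans hzlo) hzhi r q hR
  have hq1 : ∀ i, 1 ≤ q i := fun i => (hR i).1
  have hqX : ∀ i, q i ≤ X := fun i => q_le hX1 hρ (hR i).2.1
  have hVi : ∀ i, L ^ (A + 2) ≤ ((X / q i + 1 : ℕ) : ℝ) := by
    intro i
    have hqi0 : (0 : ℝ) < q i := by exact_mod_cast hq1 i
    have h6 : (X : ℝ) ≤ q i * ((X / q i + 1 : ℕ) : ℝ) := by
      have h7 : X ≤ q i * (X / q i + 1) := by
        have := Nat.div_add_mod X (q i)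
        have h5 := Nat.mod_lt X (hq1 i)
        nlinarith
      exact_mod_cast h7
    have h7 : (q i : ℝ) ≤ (X : ℝ) ^ (2 / 3 : ℝ) :=
      (hR i).2.1.trans (Real.rpow_le_rpow_of_exponent_le hX1r (by linarith))
    have h8 : (X : ℝ) = (X : ℝ) ^ (1 / 3 : ℝ) * (X : ℝ) ^ (2 / 3 : ℝ) := by
      rw [← Real.rpow_add hX0]
      norm_num
    have h9 : L ^ (A + 2) ≤ (X : ℝ) ^ (1 / 3 : ℝ) := hLp
    have h10 : (X : ℝ) ^ (1 / 3 : ℝ) * q i ≤ ((X / q i + 1 : ℕ) : ℝ) * q i := by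
      calc (X : ℝ) ^ (1 / 3 : ℝ) * q i ≤ (X : ℝ) ^ (1 / 3 : ℝ) * (X : ℝ) ^ (2 / 3 : ℝ) :=
            mul_le_mul_of_nonneg_left h7 (by positivity)
        _ = X := h8.symm
        _ ≤ q i * ((X / q i + 1 : ℕ) : ℝ) := h6
        _ = _ := mul_comm _ _
    exact h9.trans (le_of_mul_le_mul_right h10 hqi0)
  obtain ⟨G, hG⟩ : ∃ G, G = (box X q).filter (fun m => (∀ i, 1 ≤ pt r q m i) ∧ ¬ GoodZ s c σ ε C X (pt r q m)) :=
    ⟨_, rfl⟩
  rw [← hG]
  refine (union_bd X c r q hq1 hc L hL1 A U hVi (by omega) _ rfl S G hS2 (fun m' hm' => ?_) (fun m' hm' hmS => ?_)).trans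
    (fin_bd X q hq1 hqX L hL1 A (by linarith))
  · rw [hG, mem_filter] at hm'
    exact hm'.1
  · rw [hG, mem_filter] at hm'
    obtain ⟨hmb, hpos, hbad⟩ := hm'
    by_contra hcon
    push Not at hcon
    apply hbad
    have hw := hS3 m' hmb hmS hpos
    refine c3 z hzlo hzhi (pt r q m') hpos (fun i => ?_) hcon hw
    exact al_le (hqX i) (hR i).2.2.2 (Fintype.mem_piFinset.1 hmb i)

end Pool.Agent.T9h57.TG
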