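import Pool.Agent.T9h57.TG.Asy

set_option autoImplicit false

/-! Systems of linear polynomials with signs: the formulas for one system. -/

namespace Pool.Agent.T9h57.TG

open Finset Filter
open Pool.Agent.H373R2.T7
open Pool.Agent.T9h57.TP (LD PR Fv SS lf vl_lf wS dS wd_S lamP_nat PR_limit Kb)
open Pool.Agent.Y614.GJ.Core (ev_log)

variable {k : ℕ}

/-- the formulas -/
def GoodZ (s : Bool) (c : Fin k → ℕ) (σ : Fin k → ℤ) (ε : ℝ) (A X : ℕ) (a : Fin k → ℕ) : Prop :=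
  ∃ CF : ℝ, Tendsto (fun z => PR (om s c (fun i => σ i * a i)) (k + s.toNat) z) atTop (nhds CF) ∧
    (∀ y : ℕ, y ≤ X → |(cntZ s c σ a y : ℝ) - CF * ∑ n ∈ dom c σ a y, fz s c σ a n| ≤ X / Real.log X ^ A) ∧
    ((∀ p : ℕ, p.Prime → om s c (fun i => σ i * a i) p < p) → ∀ y : ℕ, y ≤ X →
      ε * X ≤ posCount (lf c) σ a y →
      |(cntZ s c σ a y : ℝ) - CF * (posCount (lf c) σ a y / Real.log (posCount (lf c) σ a y) ^ (k + s.toNat))| ≤
        ε * (CF * (posCount (lf c) σ a y / Real.log (posCount (lf c) σ a y) ^ (k + s.toNat))))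

/-- the form with the logarithm of the number of arguments -/
lemma form_of (s : Bool) (c : Fin k → ℕ) (hc : ∀ i, 1 ≤ c i) (σ : Fin k → ℤ) (hσ : ∀ i, σ i = 1 ∨ σ i = -1)
    (ε : ℝ) (hε : 0 < ε) (c0 : ℝ) (hc0 : 0 < c0) (h : ℝ) (hh : 0 ≤ h) :
    ∃ X₀ : ℕ, ∀ X : ℕ, X₀ ≤ X → ∀ a : Fin k → ℕ, (∀ i, 1 ≤ a i) →
      (∀ n ≤ X, ∀ i, 2 ≤ vz c σ a i n → Real.log ((vz c σ a i n : ℤ) : ℝ) ≤ Real.log X + h) →
      ∀ CF : ℝ, c0 ≤ CF → ∀ y : ℕ, y ≤ X →
      |(cntZ s c σ a y : ℝ) - CF * ∑ n ∈ dom c σ a y, fz s c σ a n| ≤ X / Real.log X ^ (k + s.toNat + 1) →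
      ε * X ≤ posCount (lf c) σ a y →
      |(cntZ s c σ a y : ℝ) - CF * (posCount (lf c) σ a y / Real.log (posCount (lf c) σ a y) ^ (k + s.toNat))| ≤
        ε * (CF * (posCount (lf c) σ a y / Real.log (posCount (lf c) σ a y) ^ (k + s.toNat))) := by
  obtain ⟨m, hm⟩ : ∃ m, m = k + s.toNat := ⟨_, rfl⟩
  obtain ⟨δ, hδ⟩ : ∃ δ, δ = min 1 (ε / 3) := ⟨_, rfl⟩
  have hδ0 : 0 < δ := by rw [hδ]; exact lt_min one_pos (by positivity)
  have hδ1 : δ ≤ 1 := by rw [hδ]; exact min_le_left _ _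
  have hδε : 3 * δ ≤ ε := by
    have : δ ≤ ε / 3 := by rw [hδ]; exact min_le_right _ _
    linarith
  obtain ⟨X₁, h1⟩ := asy m ε δ h ((k + 1) * 2 ^ (k + 1) + 1 / c0) hε hδ0 hδ1 hh (by positivity)
  obtain ⟨X₂, h2⟩ := ev_big (4 / ε) 1 one_pos
  refine ⟨X₁ + X₂ + 2, fun X hX a ha hval CF hCF y hy hbd hP => ?_⟩
  obtain ⟨g1, g2⟩ := h1 X (by omega)
  obtain ⟨e1, -, e3⟩ := h2 X (by omega)
  rw [← hm] at hbd ⊢
  obtain ⟨P, hPd⟩ : ∃ P, P = posCount (lf c) σ a y := ⟨_, rfl⟩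
  rw [← hPd] at hP ⊢
  have hX0 : (0 : ℝ) < X := by exact_mod_cast (by omega : 0 < X)
  have hX1 : (1 : ℝ) ≤ X := by exact_mod_cast (by omega : 1 ≤ X)
  have hPX : P ≤ X := by
    rw [hPd]
    unfold posCount
    refine (card_filter_le _ _).trans ?_
    rw [Nat.card_Icc]
    omega
  have hPXr : (P : ℝ) ≤ X := by exact_mod_cast hPX
  obtain ⟨k1, k2, k3, k4⟩ := g2 P hP hPXr
  have hP4 : 4 ≤ P := by
    have h3 : (4 : ℝ) ≤ ε * X := by
      rw [div_le_iff₀ hε] at e3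
      linarith
    have h4 : (4 : ℝ) ≤ P := h3.trans hP
    exact_mod_cast h4
  obtain ⟨y', hy', hdom⟩ := dom_eq c σ hσ a ha hc y
  obtain ⟨p1, p2⟩ := pos_dom c σ hσ a ha hc y y' hy' hdom (by omega)
  rw [← hPd] at p1 p2
  obtain ⟨L, hL⟩ : ∃ L, L = Real.log (X : ℝ) := ⟨_, rfl⟩
  rw [← hL] at hbd g1 k2 k3 k4 hval
  obtain ⟨Z, hZ⟩ : ∃ Z : ℝ, Z = X / L ^ (m + 1) := ⟨_, rfl⟩
  rw [← hZ] at hbd g1 k3 k4
  obtain ⟨Q, hQ⟩ : ∃ Q : ℝ, Q = P / Real.log P ^ m := ⟨_, rfl⟩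
  rw [← hQ] at k2 k3 k4 ⊢
  have hL0 : 0 < L := by
    have h3 : (0 : ℝ) < 4 / ε := by positivity
    rw [hL]
    linarith
  have hZ0 : 0 < Z := by rw [hZ]; positivity
  have hP0 : (0 : ℝ) < P := by exact_mod_cast (by omega : 0 < P)
  have hQ0 : 0 < Q := by
    rw [hQ]
    have : 0 < Real.log P := by linarith
    positivity
  obtain ⟨Sf, hSf⟩ : ∃ Sf, Sf = ∑ n ∈ dom c σ a y, fz s c σ a n := ⟨_, rfl⟩
  have u1 := sum_fz_le s c σ hσ a hc y y' hdom Z g1 hZ0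
  have u2 := sum_fz_ge s c σ a y y' hdom (L + h) (by linarith) (by
    intro n hn
    unfold dom at hn
    rw [mem_filter, mem_Icc] at hn
    refine ⟨?_, fun i => hval n (by omega) i (hn.2 i)⟩
    have h3 : Real.log n ≤ L := by
      rw [hL]
      apply Real.log_le_log
      · exact_mod_cast (by omega : 0 < n)
      · exact_mod_cast (by omega : n ≤ X)
    linarith) (by omega)
  rw [← hSf, ← hm] at u1 u2
  rw [← hSf] at hbd
  have hy'P : (y' : ℝ) ≤ P := by exact_mod_cast p1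
  have hPy' : (P : ℝ) ≤ y' + 1 := by exact_mod_cast p2
  have v1 : Sf ≤ (1 + 2 * δ) * Q := by
    have h3 : (y' : ℝ) / Real.log Z ^ m ≤ P / Real.log Z ^ m := by
      apply div_le_div_of_nonneg_right hy'P
      apply pow_nonneg
      linarith
    have h4 : ((k : ℝ) + 1) * 2 ^ (k + 1) * Z ≤ ((k + 1) * 2 ^ (k + 1) + 1 / c0) * Z := by
      apply mul_le_mul_of_nonneg_right _ hZ0.le
      have : (0 : ℝ) < 1 / c0 := by positivity
      linarith
    linarith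
  have v2 : (1 - δ) * Q ≤ Sf := by
    refine k2.trans (le_trans ?_ u2)
    apply div_le_div_of_nonneg_right (by linarith)
    apply pow_nonneg
    linarith
  have hCF0 : 0 < CF := by linarith
  have v3 : Z ≤ δ * (CF * Q) := by
    have h3 : 1 / c0 * Z ≤ ((k + 1) * 2 ^ (k + 1) + 1 / c0) * Z := by
      apply mul_le_mul_of_nonneg_right _ hZ0.le
      have : (0 : ℝ) < (k + 1) * 2 ^ (k + 1) := by positivity
      linarith
    have h4 : 1 / c0 * Z ≤ δ * Q := h3.trans k4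
    rw [one_div_mul_eq_div, div_le_iff₀ hc0] at h4
    calc Z ≤ δ * Q * c0 := h4
      _ ≤ δ * Q * CF := mul_le_mul_of_nonneg_left hCF (by positivity)
      _ = _ := by ring
  have v4 : CF * Sf ≤ CF * ((1 + 2 * δ) * Q) := mul_le_mul_of_nonneg_left v1 hCF0.le
  have v5 : CF * ((1 - δ) * Q) ≤ CF * Sf := mul_le_mul_of_nonneg_left v2 hCF0.le
  have v6 : 0 < CF * Q := by positivity
  have v7 : 3 * δ * (CF * Q) ≤ ε * (CF * Q) := mul_le_mul_of_nonneg_right hδε v6.le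
  have v8 : 0 < δ * (CF * Q) := by positivity
  obtain ⟨w1, w2⟩ := abs_le.1 hbd
  have x1 : CF * ((1 + 2 * δ) * Q) = CF * Q + 2 * (δ * (CF * Q)) := by ring
  have x2 : CF * ((1 - δ) * Q) = CF * Q - δ * (CF * Q) := by ring
  rw [abs_le]
  constructor <;> linarith

set_option maxHeartbeats 1000000 in
/-- the formulas for one system from the weighted formula -/
lemma good_of (s : Bool) (c : Fin k → ℕ) (hc : ∀ i, 1 ≤ c i) (hks : 1 ≤ k + s.toNat) (M : ℕ) (hM : ∀ i, c i ≤ M)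
    (σ : Fin k → ℤ) (hσ : ∀ i, σ i = 1 ∨ σ i = -1) (ε : ℝ) (hε : 0 < ε) (A U E1 : ℕ) (hU : A + k + 6 ≤ U)
    (hE : U + k + 4 ≤ E1) :
    ∃ X₀ : ℕ, ∀ X : ℕ, X₀ ≤ X → ∀ z : ℕ, Real.log X ^ E1 ≤ z → (z : ℝ) ≤ Real.log X ^ (E1 + 1) →
      ∀ a : Fin k → ℕ, (∀ i, 1 ≤ a i) → (∀ i, a i ≤ 2 * X) → (∀ i j, i ≠ j → c i * a j ≠ c j * a i) →
      (∀ y ≤ X, |∑ n ∈ Icc 1 y, wS s n * ∏ i, lamP ((a i : ℤ) + σ i * (c i * n)) -
        SS (dS s) c σ z a * posCount (lf c) σ a y| ≤ X / Real.log X ^ U) →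
      GoodZ s c σ ε A X a := by
  obtain ⟨M2, hM2⟩ : ∃ M2 : ℕ, M2 = M + 2 := ⟨_, rfl⟩
  obtain ⟨m, hm⟩ : ∃ m : ℕ, m = k + s.toNat := ⟨_, rfl⟩
  have hst : s.toNat ≤ 1 := by cases s <;> simp
  obtain ⟨c0, hc0⟩ : ∃ c0 : ℝ, c0 = (1 / (3 * (k + s.toNat : ℕ) : ℝ)) ^ (3 * (k + s.toNat)) *
    Real.exp (-(2 * ((k + s.toNat : ℕ) : ℝ) ^ 2)) := ⟨_, rfl⟩
  have hc0p : 0 < c0 := by
    rw [hc0]
    have : (0 : ℝ) < ((k + s.toNat : ℕ) : ℝ) := by exact_mod_cast hks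
    positivity
  have hM2r : (2 : ℝ) ≤ M2 := by rw [hM2]; push_cast; linarith [Nat.cast_nonneg (α := ℝ) M]
  obtain ⟨N₁, h1⟩ := form_of s c hc σ hσ ε hε c0 hc0p (Real.log M2) (Real.log_nonneg (by linarith))
  obtain ⟨N₂, h2⟩ := Filter.eventually_atTop.1 (ev_log (U + 2) (s := 1 / 3) (by norm_num)
    (2 * M2 + ((m : ℝ) ^ 2 + 16 * m * (k + k * k)) + (3 * (k + 1) + M + 1) + 2 ^ (k + 4) * (k + 1) + 100))
  obtain ⟨N₃, h3⟩ := Vz_inv_small (E1 + 1)
  refine ⟨N₁ + N₂ + N₃ + 4, fun X hX z hzlo hzhi a hpos hal hnd hw => ?_⟩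
  have hX1 : 1 ≤ X := by omega
  have hX0 : (0 : ℝ) < X := by exact_mod_cast hX1
  have hX1r : (1 : ℝ) ≤ X := by exact_mod_cast hX1
  obtain ⟨hLb, hLp⟩ := h2 X (by omega)
  obtain ⟨L, hLd⟩ : ∃ L, L = Real.log (X : ℝ) := ⟨_, rfl⟩
  have hMr : (0 : ℝ) ≤ M := Nat.cast_nonneg _
  have hkr : (0 : ℝ) ≤ k := Nat.cast_nonneg _
  have hmr : (0 : ℝ) ≤ m := Nat.cast_nonneg _
  have p1 : 0 ≤ (m : ℝ) ^ 2 + 16 * m * (k + k * k) := by positivity
  have p3 : (0 : ℝ) < 2 ^ (k + 4) * (k + 1) := by positivity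
  have c1 := h1 X (by omega) a hpos
  have c3 := h3 X (by omega)
  have hX13 : (X : ℝ) ^ (1 / 3 : ℝ) ≤ X := by
    calc (X : ℝ) ^ (1 / 3 : ℝ) ≤ (X : ℝ) ^ (1 : ℝ) := Real.rpow_le_rpow_of_exponent_le hX1r (by norm_num)
      _ = X := Real.rpow_one _
  rw [← hLd] at hLb hLp c1 c3 hzlo hzhi hw
  have hL100 : 100 ≤ L := by linarith
  have hL1 : 1 ≤ L := by linarith
  have hL0 : 0 < L := by linarith
  have hL1B : 1 ≤ L ^ E1 := one_le_pow₀ hL1
  have hz1 : 1 ≤ z := by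
    have : (1 : ℝ) ≤ z := hL1B.trans hzlo
    exact_mod_cast this
  have hz0r : (0 : ℝ) < z := by exact_mod_cast hz1
  have hV := c3 z hz1 hzhi
  have hV0 : 0 ≤ (Vz z)⁻¹ := (inv_pos.2 (Vz_pos z)).le
  -- the signed constant terms
  have habs : ∀ i, (σ i * (a i : ℤ)).natAbs = a i := by
    intro i
    rcases hσ i with h | h
    · rw [h, one_mul, Int.natAbs_natCast]
    · rw [h, neg_one_mul, Int.natAbs_neg, Int.natAbs_natCast]
  have hne : ∀ i, σ i * (a i : ℤ) ≠ 0 := by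
    intro i h
    have h4 := habs i
    rw [h] at h4
    have := hpos i
    simp at h4
    omega
  have hcabs : ∀ i j, ((c i : ℤ) * (σ j * (a j : ℤ))).natAbs = c i * a j := by
    intro i j
    rw [Int.natAbs_mul, habs, Int.natAbs_natCast]
  have hnd' : ∀ i j, i ≠ j → (c i : ℤ) * (σ j * (a j : ℤ)) ≠ c j * (σ i * (a i : ℤ)) := by
    intro i j hij he
    apply hnd i j hij
    rw [← hcabs i j, ← hcabs j i, he]
  have hLD := om_LD s c (fun i => σ i * a i) M hc hM hne hks hnd'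
  obtain ⟨CF, hCF1, hCF2⟩ := PR_limit hLD
  -- the bad primes
  obtain ⟨nb, hnb⟩ : ∃ nb, nb = (badS c (fun i => σ i * (a i : ℤ))).card := ⟨_, rfl⟩
  have hYb : (nb : ℝ) ≤ (k + k * k) * (4 * L) := by
    obtain ⟨Y, hY⟩ : ∃ Y, Y = 2 * (2 * M2 * X) := ⟨_, rfl⟩
    have hY1 : 1 ≤ Y := by
      rw [hY, hM2]
      nlinarith
    have h6 := card_badS c (fun i => σ i * (a i : ℤ)) Y (fun i => by
      rw [habs]
      refine (hal i).trans ?_
      rw [hY, hM2]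
      nlinarith) (fun i j => by
      have h7 : c i * a j ≤ 2 * M2 * X := by
        calc c i * a j ≤ M * (2 * X) := Nat.mul_le_mul (hM i) (hal j)
          _ ≤ 2 * M2 * X := by rw [hM2]; nlinarith
      have h8 : c j * a i ≤ 2 * M2 * X := by
        calc c j * a i ≤ M * (2 * X) := Nat.mul_le_mul (hM j) (hal i)
          _ ≤ 2 * M2 * X := by rw [hM2]; nlinarith
      refine (Int.natAbs_sub_le _ _).trans ?_
      rw [hcabs, hcabs, hY]
      omega)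
    rw [← hnb] at h6
    have h7 : (nb : ℝ) ≤ (((k + k * k) * Nat.log 2 Y : ℕ) : ℝ) := by exact_mod_cast h6
    refine h7.trans ?_
    push_cast
    apply mul_le_mul_of_nonneg_left _ (by positivity)
    refine (natlog_le Y hY1).trans ?_
    have h8 : (Y : ℝ) = (4 * M2) * X := by rw [hY]; push_cast; ring
    rw [h8, Real.log_mul (by positivity) hX0.ne', ← hLd]
    have h9 : Real.log (4 * (M2 : ℝ)) ≤ Real.log 2 + 2 * M2 := by
      have e : 4 * (M2 : ℝ) = 2 * (2 * M2) := by ring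
      rw [e, Real.log_mul (by norm_num) (by positivity)]
      have := Real.log_le_sub_one_of_pos (show 0 < 2 * (M2 : ℝ) by positivity)
      linarith
    have h10 := Real.log_two_lt_d9
    linarith
  have hKb : Kb (k + s.toNat) (badS c (fun i => σ i * (a i : ℤ))) ≤ L ^ 2 := by
    unfold Kb
    rw [← hm, ← hnb]
    have h6 : 4 * (m : ℝ) * nb ≤ 4 * m * ((k + k * k) * (4 * L)) :=
      mul_le_mul_of_nonneg_left hYb (by positivity)
    have h7 : (m : ℝ) ^ 2 ≤ (m : ℝ) ^ 2 * L := le_mul_of_one_le_right (by positivity) hL1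
    have h8 : (m : ℝ) ^ 2 * L + 4 * m * ((k + k * k) * (4 * L)) = ((m : ℝ) ^ 2 + 16 * m * (k + k * k)) * L := by ring
    have h9 : ((m : ℝ) ^ 2 + 16 * m * (k + k * k)) * L ≤ L * L :=
      mul_le_mul_of_nonneg_right (by linarith) hL0.le
    rw [pow_two L]
    linarith
  obtain ⟨KB, hKBd⟩ : ∃ KB, KB = Kb (k + s.toNat) (badS c (fun i => σ i * (a i : ℤ))) := ⟨_, rfl⟩
  have hKb0 : 0 ≤ KB := by rw [hKBd]; unfold Kb; positivity
  rw [← hKBd] at hKb
  have hzbig : L ^ 2 ≤ z := (pow_le_pow_right₀ hL1 (by omega)).trans hzlo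
  have hz3 : 3 * (k + 1) + M + 1 ≤ z := by
    have h6 : ((3 * (k + 1) + M + 1 : ℕ) : ℝ) ≤ z := by
      push_cast
      have h7 : L ≤ L ^ 2 := by nlinarith
      linarith
    exact_mod_cast h6
  have hCFz := hCF2 z hz3 (by rw [← hKBd]; exact hKb.trans hzbig)
  rw [← SS_eq s c a σ hσ, ← hKBd] at hCFz
  obtain ⟨SZ, hSZ⟩ : ∃ SZ, SZ = SS (dS s) c σ z a := ⟨_, rfl⟩
  have hSz0 : 0 ≤ SZ := by
    rw [hSZ]
    unfold SS
    exact mul_nonneg (pow_nonneg hV0 _) ((wd_S s _ (sysC_pos (lf c))).d0 _ _)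
  have hSz1 : SZ ≤ L ^ k := by
    rw [hSZ]
    unfold SS
    calc ((Vz z)⁻¹) ^ k * dS s (sysQ (lf c) σ a) z ≤ L ^ k * 1 :=
          mul_le_mul (pow_le_pow_left₀ hV0 hV _) ((wd_S s _ (sysC_pos (lf c))).d1 _ _)
            ((wd_S s _ (sysC_pos (lf c))).d0 _ _) (by positivity)
      _ = L ^ k := mul_one _
  rw [← hSZ] at hCFz hw
  have hCFz' : |CF - SZ| ≤ 1 / L ^ U := by
    refine hCFz.trans ?_
    have h6 : KB / z ≤ L ^ 2 / L ^ (U + k + 4) := by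
      apply div_le_div₀ (by positivity) hKb (by positivity)
      exact (pow_le_pow_right₀ hL1 (by omega)).trans hzlo
    calc SZ * (KB / z) ≤ L ^ k * (L ^ 2 / L ^ (U + k + 4)) :=
          mul_le_mul hSz1 h6 (by positivity) (by positivity)
      _ = (1 / L ^ U) * (1 / L ^ 2) := by
          rw [show U + k + 4 = U + k + 2 + 2 by ring, pow_add, pow_add, pow_add]
          field_simp
      _ ≤ (1 / L ^ U) * 1 := by
          apply mul_le_mul_of_nonneg_left _ (by positivity)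
          rw [div_le_one (by positivity)]
          nlinarith
      _ = _ := mul_one _
  -- the weighted sums
  have hT : ∀ u, u ≤ X → |∑ n ∈ Icc 1 u, wS s n * ∏ i, lamP ((a i : ℤ) + σ i * (c i * n)) -
      CF * posCount (lf c) σ a u| ≤ 2 * (X / L ^ U) := by
    intro u hu
    have h6 := hw u hu
    have hpu : posCount (lf c) σ a u ≤ X := by
      unfold posCount
      refine (card_filter_le _ _).trans ?_
      rw [Nat.card_Icc]
      omega
    obtain ⟨pu, hpud⟩ : ∃ pu : ℝ, pu = (posCount (lf c) σ a u : ℝ) := ⟨_, rfl⟩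
    have hur : pu ≤ X := by rw [hpud]; exact_mod_cast hpu
    have hpu0 : 0 ≤ pu := by rw [hpud]; exact Nat.cast_nonneg _
    rw [← hpud] at h6 ⊢
    have h7 : |(SZ - CF) * pu| ≤ X / L ^ U := by
      rw [abs_mul, abs_sub_comm, abs_of_nonneg hpu0]
      calc |CF - SZ| * pu ≤ (1 / L ^ U) * X :=
            mul_le_mul hCFz' hur hpu0 (by positivity)
        _ = X / L ^ U := by ring
    obtain ⟨W, hW⟩ : ∃ W, W = ∑ n ∈ Icc 1 u, wS s n * ∏ i, lamP ((a i : ℤ) + σ i * (c i * n)) := ⟨_, rfl⟩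
    rw [← hW] at h6 ⊢
    have e : W - CF * pu = (W - SZ * pu) + (SZ - CF) * pu := by ring
    rw [e]
    refine (abs_add_le _ _).trans ?_
    linarith
  have hfin := unweightZ s c σ hσ a hpos hc X CF (2 * (X / L ^ U)) hT
  -- the size of the error
  have hXU : ∀ D : ℕ, D + 1 ≤ U → 1 + 2 * (2 * ((X : ℝ) / L ^ U)) * (2 ^ (k + 2) * (k + 1)) ≤ X / L ^ D := by
    intro D hD
    have h6 : (X : ℝ) / L ^ U ≤ X / L ^ (D + 1) := by
      apply div_le_div_of_nonneg_left hX0.le (by positivity)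
      exact pow_le_pow_right₀ hL1 hD
    have h7 : (1 : ℝ) ≤ X / L ^ (D + 1) := by
      rw [le_div_iff₀ (by positivity), one_mul]
      have h8 : L ^ (D + 1) ≤ L ^ (U + 2) := pow_le_pow_right₀ hL1 (by omega)
      exact h8.trans (hLp.trans hX13)
    have h8 : (X : ℝ) / L ^ D = L * (X / L ^ (D + 1)) := by
      rw [pow_succ]
      field_simp
    rw [h8]
    obtain ⟨κ, hκ⟩ : ∃ κ : ℝ, κ = 2 ^ (k + 2) * (k + 1) := ⟨_, rfl⟩
    have h9 : (2 : ℝ) ^ (k + 4) * (k + 1) = 4 * κ := by rw [hκ]; ring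
    have h10 : 0 < κ := by rw [hκ]; positivity
    rw [← hκ]
    obtain ⟨ξ, hξ⟩ : ∃ ξ : ℝ, ξ = X / L ^ (D + 1) := ⟨_, rfl⟩
    rw [← hξ] at h6 h7 ⊢
    calc 1 + 2 * (2 * ((X : ℝ) / L ^ U)) * κ ≤ ξ + 2 * (2 * ξ) * κ := by
          apply add_le_add h7
          apply mul_le_mul_of_nonneg_right _ h10.le
          linarith
      _ = (1 + 4 * κ) * ξ := by ring
      _ ≤ L * ξ := by
          apply mul_le_mul_of_nonneg_right _ (by linarith)
          linarith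
  refine ⟨CF, hCF1, fun y hy => ?_, fun hlt y hy hP => ?_⟩
  · rw [← hLd]
    exact (hfin y hy).trans (hXU A (by omega))
  · have hCFlow : c0 ≤ CF := ge_of_tendsto' hCF1 fun z' => by
      rw [hc0]
      exact PR_low s c (fun i => σ i * (a i : ℤ)) hks hlt z'
    refine c1 (fun n hn i hv => ?_) CF hCFlow y hy ?_ hP
    · have h6 : vz c σ a i n ≤ ((M2 * X : ℕ) : ℤ) := by
        unfold vz
        have h7 : (a i : ℤ) ≤ 2 * X := by exact_mod_cast hal i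
        have h8 : (c i : ℤ) * n ≤ M * X := by exact_mod_cast Nat.mul_le_mul (hM i) hn
        have h9 : (0 : ℤ) ≤ (c i : ℤ) * n := by positivity
        rw [hM2]
        push_cast
        rcases hσ i with h | h
        · rw [h]; nlinarith
        · rw [h]; nlinarith
      have h7 : Real.log ((vz c σ a i n : ℤ) : ℝ) ≤ Real.log ((M2 * X : ℕ) : ℝ) := by
        apply Real.log_le_log
        · exact_mod_cast (by omega : (0 : ℤ) < vz c σ a i n)
        · exact_mod_cast h6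
      refine h7.trans (le_of_eq ?_)
      push_cast
      rw [Real.log_mul (by positivity) hX0.ne', ← hLd]
      ring
    · exact (hfin y hy).trans (hXU (k + s.toNat + 1) (by omega))

end Pool.Agent.T9h57.TG
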