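import Pool.Agent.T9h57.TG.Om

set_option autoImplicit false

/-! Systems of linear polynomials with signs: from the weighted sums to the number of prime values. -/

namespace Pool.Agent.T9h57.TG

open Finset Filter
open Pool.Agent.H373R2.T7
open Pool.Agent.T9h57.TP (LD PR Fv SS lf vl_lf wS dS wd_S lamP_nat)

variable {k : ℕ}

/-- the values -/
def vz (c : Fin k → ℕ) (σ : Fin k → ℤ) (a : Fin k → ℕ) (i : Fin k) (n : ℕ) : ℤ := (a i : ℤ) + σ i * (c i * n)

/-- all the values are primes -/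
def AllZ (s : Bool) (c : Fin k → ℕ) (σ : Fin k → ℤ) (a : Fin k → ℕ) (n : ℕ) : Prop :=
  (s = true → n.Prime) ∧ ∀ i, (vz c σ a i n).toNat.Prime

open Classical in
/-- the number of the `n ≤ y` with prime values -/
noncomputable def cntZ (s : Bool) (c : Fin k → ℕ) (σ : Fin k → ℤ) (a : Fin k → ℕ) (y : ℕ) : ℕ :=
  ((Icc 1 y).filter (fun n => AllZ s c σ a n)).card

/-- the `2 ≤ n ≤ y` with values at least `2` -/
def dom (c : Fin k → ℕ) (σ : Fin k → ℤ) (a : Fin k → ℕ) (y : ℕ) : Finset ℕ :=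
  (Icc 2 y).filter (fun n => ∀ i, 2 ≤ vz c σ a i n)

/-- the reciprocal of the product of the logarithms -/
noncomputable def fz (s : Bool) (c : Fin k → ℕ) (σ : Fin k → ℤ) (a : Fin k → ℕ) (n : ℕ) : ℝ :=
  1 / ((if s = true then Real.log n else 1) * ∏ i, Real.log ((vz c σ a i n : ℤ) : ℝ))

/-- the products of bounded factors -/
lemma prod_diff {ι : Type*} (t : Finset ι) (a b : ι → ℝ) (ha : ∀ i ∈ t, 0 ≤ a i ∧ a i ≤ 2)
    (hb : ∀ i ∈ t, 0 ≤ b i ∧ b i ≤ 2) :
    |∏ i ∈ t, a i - ∏ i ∈ t, b i| ≤ 2 ^ t.card * ∑ i ∈ t, |a i - b i| := by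
  classical
  induction t using Finset.induction_on with
  | empty => simp
  | insert j t hj ih =>
    rw [prod_insert hj, prod_insert hj, sum_insert hj, card_insert_of_notMem hj]
    have ih' := ih (fun i hi => ha i (mem_insert_of_mem hi)) (fun i hi => hb i (mem_insert_of_mem hi))
    have h1 : |∏ i ∈ t, a i| ≤ 2 ^ t.card := by
      rw [abs_of_nonneg (prod_nonneg fun i hi => (ha i (mem_insert_of_mem hi)).1)]
      calc ∏ i ∈ t, a i ≤ ∏ _i ∈ t, (2 : ℝ) :=
            prod_le_prod (fun i hi => (ha i (mem_insert_of_mem hi)).1) (fun i hi => (ha i (mem_insert_of_mem hi)).2)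
        _ = 2 ^ t.card := by rw [prod_const]
    have hbj := hb j (mem_insert_self _ _)
    have e : a j * ∏ i ∈ t, a i - b j * ∏ i ∈ t, b i =
        (a j - b j) * ∏ i ∈ t, a i + b j * (∏ i ∈ t, a i - ∏ i ∈ t, b i) := by ring
    rw [e]
    refine (abs_add_le _ _).trans ?_
    rw [abs_mul, abs_mul, abs_of_nonneg hbj.1]
    have h2 : |a j - b j| * |∏ i ∈ t, a i| ≤ |a j - b j| * 2 ^ t.card :=
      mul_le_mul_of_nonneg_left h1 (abs_nonneg _)
    have h3 : b j * |∏ i ∈ t, a i - ∏ i ∈ t, b i| ≤ 2 * (2 ^ t.card * ∑ i ∈ t, |a i - b i|) :=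
      mul_le_mul hbj.2 ih' (abs_nonneg _) (by norm_num)
    have h4 : 0 ≤ |a j - b j| * 2 ^ t.card := by positivity
    have h5 : 2 ^ (t.card + 1) * (|a j - b j| + ∑ i ∈ t, |a i - b i|) =
        2 * (|a j - b j| * 2 ^ t.card) + 2 * (2 ^ t.card * ∑ i ∈ t, |a i - b i|) := by ring
    rw [h5]
    linarith

/-- Abel's inequality with the total variation -/
lemma abel_tv (f g : ℕ → ℝ) (T V : ℝ) (y : ℕ) (hy : 2 ≤ y) (hf : |f y| + ∑ n ∈ Ico 2 y, |f (n + 1) - f n| ≤ V)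
    (hG : ∀ u, u ≤ y → |∑ n ∈ Icc 2 u, g n| ≤ T) : |∑ n ∈ Icc 2 y, g n * f n| ≤ T * V := by
  have hT : 0 ≤ T := (abs_nonneg _).trans (hG 0 (Nat.zero_le _))
  have key : ∀ w, 2 ≤ w → ∑ n ∈ Icc 2 w, g n * f n =
      (∑ n ∈ Icc 2 w, g n) * f w + ∑ n ∈ Ico 2 w, (∑ j ∈ Icc 2 n, g j) * (f n - f (n + 1)) := by
    intro w hw
    induction w, hw using Nat.le_induction with
    | base => simp
    | succ w hw ih =>
      rw [sum_Icc_succ_top (by omega), sum_Icc_succ_top (by omega), sum_Ico_succ_top (by omega), ih]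
      ring
  rw [key y hy]
  have h1 : |(∑ n ∈ Icc 2 y, g n) * f y| ≤ T * |f y| := by
    rw [abs_mul]
    exact mul_le_mul_of_nonneg_right (hG y le_rfl) (abs_nonneg _)
  have h2 : |∑ n ∈ Ico 2 y, (∑ j ∈ Icc 2 n, g j) * (f n - f (n + 1))| ≤ T * ∑ n ∈ Ico 2 y, |f (n + 1) - f n| := by
    rw [mul_sum]
    refine (abs_sum_le_sum_abs _ _).trans (sum_le_sum fun n hn => ?_)
    rw [mem_Ico] at hn
    rw [abs_mul, abs_sub_comm (f n)]
    exact mul_le_mul_of_nonneg_right (hG n hn.2.le) (abs_nonneg _)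
  refine (abs_add_le _ _).trans ?_
  calc |(∑ n ∈ Icc 2 y, g n) * f y| + |∑ n ∈ Ico 2 y, (∑ j ∈ Icc 2 n, g j) * (f n - f (n + 1))|
      ≤ T * (|f y| + ∑ n ∈ Ico 2 y, |f (n + 1) - f n|) := by linarith
    _ ≤ T * V := mul_le_mul_of_nonneg_left hf hT

/-- an initial segment -/
lemma dom_eq (c : Fin k → ℕ) (σ : Fin k → ℤ) (hσ : ∀ i, σ i = 1 ∨ σ i = -1) (a : Fin k → ℕ) (ha : ∀ i, 1 ≤ a i)
    (hc : ∀ i, 1 ≤ c i) (y : ℕ) : ∃ y' ≤ y, dom c σ a y = Icc 2 y' := by
  classical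
  have hd : ∀ n, (∀ i, 2 ≤ vz c σ a i (n + 1)) → 1 ≤ n → ∀ i, 2 ≤ vz c σ a i n := by
    intro n h hn i
    have h1 := h i
    unfold vz at h1 ⊢
    have h2 : (1 : ℤ) ≤ c i := by exact_mod_cast hc i
    have h3 : (1 : ℤ) ≤ a i := by exact_mod_cast ha i
    have h4 : (1 : ℤ) ≤ n := by exact_mod_cast hn
    rcases hσ i with h5 | h5
    · rw [h5]; nlinarith
    · rw [h5] at h1 ⊢
      push_cast at h1
      nlinarith
  induction y with
  | zero => exact ⟨0, le_rfl, by unfold dom; rfl⟩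
  | succ y ih =>
    obtain ⟨y', hy', he⟩ := ih
    by_cases h : ∀ i, 2 ≤ vz c σ a i (y + 1)
    · refine ⟨y + 1, le_rfl, ?_⟩
      unfold dom
      apply filter_true_of_mem
      have h1 : ∀ m, m ≤ y → 1 ≤ y + 1 - m → ∀ i, 2 ≤ vz c σ a i (y + 1 - m) := by
        intro m
        induction m with
        | zero => intro _ _; exact h
        | succ m ihm =>
          intro hm hm1
          have h2 := ihm (by omega) (by omega)
          have e : y + 1 - m = (y + 1 - (m + 1)) + 1 := by omega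
          rw [e] at h2
          exact hd _ h2 hm1
      intro n hn
      rw [mem_Icc] at hn
      have h2 := h1 (y + 1 - n) (by omega) (by omega)
      rwa [show y + 1 - (y + 1 - n) = n by omega] at h2
    · refine ⟨y', by omega, ?_⟩
      rw [← he]
      unfold dom
      ext n
      rw [mem_filter, mem_filter, mem_Icc, mem_Icc]
      constructor
      · rintro ⟨h1, h2⟩
        refine ⟨⟨h1.1, ?_⟩, h2⟩
        by_contra h3
        have h4 : n = y + 1 := by omega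
        rw [h4] at h2
        exact h h2
      · rintro ⟨h1, h2⟩
        exact ⟨⟨h1.1, by omega⟩, h2⟩

lemma log_two_le {v : ℤ} (hv : 2 ≤ v) : (1 / 2 : ℝ) ≤ Real.log (v : ℝ) := by
  have h1 : Real.log 2 ≤ Real.log (v : ℝ) := Real.log_le_log (by norm_num) (by exact_mod_cast hv)
  have h2 := Real.log_two_gt_d9
  linarith

lemma inv_le_two {x : ℝ} (hx : 1 / 2 ≤ x) : 0 ≤ 1 / x ∧ 1 / x ≤ 2 := by
  have h0 : 0 < x := by linarith
  refine ⟨by positivity, ?_⟩
  rw [div_le_iff₀ h0]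
  linarith

/-- the variation of one factor -/
lemma tv_one (v : ℕ → ℤ) (y : ℕ) (hy : 2 ≤ y) (hv : ∀ n ∈ Icc 2 y, 2 ≤ v n)
    (hm : (∀ n, v n ≤ v (n + 1)) ∨ (∀ n, v (n + 1) ≤ v n)) :
    ∑ n ∈ Ico 2 y, |1 / Real.log ((v (n + 1) : ℤ) : ℝ) - 1 / Real.log ((v n : ℤ) : ℝ)| ≤ 2 := by
  have tel : ∀ w, 2 ≤ w → ∑ n ∈ Ico 2 w, (1 / Real.log ((v (n + 1) : ℤ) : ℝ) - 1 / Real.log ((v n : ℤ) : ℝ)) =
      1 / Real.log ((v w : ℤ) : ℝ) - 1 / Real.log ((v 2 : ℤ) : ℝ) := by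
    intro w hw
    induction w, hw using Nat.le_induction with
    | base => simp
    | succ w hw ih =>
      rw [sum_Ico_succ_top (by omega), ih]
      ring
  have b1 := inv_le_two (log_two_le (hv 2 (by rw [mem_Icc]; omega)))
  have b2 := inv_le_two (log_two_le (hv y (by rw [mem_Icc]; omega)))
  have hmono : ∀ n ∈ Ico 2 y, ∀ p q : ℤ, (p = v n ∧ q = v (n + 1)) ∨ (p = v (n + 1) ∧ q = v n) → p ≤ q →
      1 / Real.log (q : ℝ) ≤ 1 / Real.log (p : ℝ) := by
    intro n hn p q hpq hle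
    rw [mem_Ico] at hn
    have hp : 2 ≤ p := by
      rcases hpq with h | h
      · rw [h.1]; exact hv n (by rw [mem_Icc]; omega)
      · rw [h.1]; exact hv (n + 1) (by rw [mem_Icc]; omega)
    have h1 := log_two_le hp
    apply one_div_le_one_div_of_le (by linarith)
    apply Real.log_le_log
    · exact_mod_cast (by omega : (0 : ℤ) < p)
    · exact_mod_cast hle
  rcases hm with hm | hm
  · have h1 : ∀ n ∈ Ico 2 y, |1 / Real.log ((v (n + 1) : ℤ) : ℝ) - 1 / Real.log ((v n : ℤ) : ℝ)| =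
        -(1 / Real.log ((v (n + 1) : ℤ) : ℝ) - 1 / Real.log ((v n : ℤ) : ℝ)) := by
      intro n hn
      apply abs_of_nonpos
      have := hmono n hn (v n) (v (n + 1)) (Or.inl ⟨rfl, rfl⟩) (hm n)
      linarith
    rw [sum_congr rfl h1, sum_neg_distrib, tel y hy]
    linarith
  · have h1 : ∀ n ∈ Ico 2 y, |1 / Real.log ((v (n + 1) : ℤ) : ℝ) - 1 / Real.log ((v n : ℤ) : ℝ)| =
        1 / Real.log ((v (n + 1) : ℤ) : ℝ) - 1 / Real.log ((v n : ℤ) : ℝ) := by
      intro n hn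
      apply abs_of_nonneg
      have := hmono n hn (v (n + 1)) (v n) (Or.inr ⟨rfl, rfl⟩) (hm n)
      linarith
    rw [sum_congr rfl h1, tel y hy]
    linarith

lemma fz_eq (s : Bool) (c : Fin k → ℕ) (σ : Fin k → ℤ) (a : Fin k → ℕ) (n : ℕ) :
    fz s c σ a n = (if s = true then 1 / Real.log (((n : ℕ) : ℤ) : ℝ) else 1) *
      ∏ i, (1 / Real.log ((vz c σ a i n : ℤ) : ℝ)) := by
  unfold fz
  rw [Finset.prod_div_distrib, prod_const_one]
  split_ifs
  · rw [Int.cast_natCast]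
    rw [one_div_mul_one_div]
  · rw [one_mul, one_mul]

/-- the total variation of the weight -/
lemma fz_tv (s : Bool) (c : Fin k → ℕ) (σ : Fin k → ℤ) (hσ : ∀ i, σ i = 1 ∨ σ i = -1) (a : Fin k → ℕ) (y : ℕ)
    (hy : 2 ≤ y) (hv : ∀ n ∈ Icc 2 y, ∀ i, 2 ≤ vz c σ a i n) :
    |fz s c σ a y| + ∑ n ∈ Ico 2 y, |fz s c σ a (n + 1) - fz s c σ a n| ≤ 2 ^ (k + 2) * (k + 1) := by
  classical
  obtain ⟨φ, hφ⟩ : ∃ φ : ℕ → ℝ, φ = fun n => (if s = true then 1 / Real.log (((n : ℕ) : ℤ) : ℝ) else 1) := ⟨_, rfl⟩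
  have hφ2 : ∀ n ∈ Icc 2 y, 0 ≤ φ n ∧ φ n ≤ 2 := by
    intro n hn
    rw [mem_Icc] at hn
    rw [hφ]
    simp only
    split_ifs
    · exact inv_le_two (log_two_le (by exact_mod_cast hn.1))
    · norm_num
  have hφv : ∑ n ∈ Ico 2 y, |φ (n + 1) - φ n| ≤ 2 := by
    rw [hφ]
    simp only
    split_ifs
    · exact tv_one (fun n => ((n : ℕ) : ℤ)) y hy (fun n hn => by rw [mem_Icc] at hn; exact_mod_cast hn.1)
        (Or.inl fun n => by push_cast; omega)
    · simp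
  have hψ : ∀ n ∈ Icc 2 y, ∀ i, 0 ≤ 1 / Real.log ((vz c σ a i n : ℤ) : ℝ) ∧ 1 / Real.log ((vz c σ a i n : ℤ) : ℝ) ≤ 2 :=
    fun n hn i => inv_le_two (log_two_le (hv n hn i))
  have hψp : ∀ n ∈ Icc 2 y, 0 ≤ ∏ i, (1 / Real.log ((vz c σ a i n : ℤ) : ℝ)) ∧
      ∏ i, (1 / Real.log ((vz c σ a i n : ℤ) : ℝ)) ≤ 2 ^ k := by
    intro n hn
    refine ⟨prod_nonneg fun i _ => (hψ n hn i).1, ?_⟩
    calc ∏ i, (1 / Real.log ((vz c σ a i n : ℤ) : ℝ)) ≤ ∏ _i : Fin k, (2 : ℝ) :=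
          prod_le_prod (fun i _ => (hψ n hn i).1) (fun i _ => (hψ n hn i).2)
      _ = 2 ^ k := by rw [prod_const, card_univ, Fintype.card_fin]
  have hψv : ∀ i, ∑ n ∈ Ico 2 y, |1 / Real.log ((vz c σ a i (n + 1) : ℤ) : ℝ) - 1 / Real.log ((vz c σ a i n : ℤ) : ℝ)| ≤ 2 := by
    intro i
    apply tv_one (fun n => vz c σ a i n) y hy (fun n hn => hv n hn i)
    rcases hσ i with h | h
    · left
      intro n
      unfold vz
      rw [h]
      push_cast
      nlinarith [Int.natCast_nonneg (c i)]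
    · right
      intro n
      unfold vz
      rw [h]
      push_cast
      nlinarith [Int.natCast_nonneg (c i)]
  have hf : ∀ n, fz s c σ a n = φ n * ∏ i, (1 / Real.log ((vz c σ a i n : ℤ) : ℝ)) := by
    intro n
    rw [fz_eq, hφ]
  have hyI : y ∈ Icc 2 y := by rw [mem_Icc]; omega
  have h1 : |fz s c σ a y| ≤ 2 * 2 ^ k := by
    rw [hf, abs_of_nonneg (mul_nonneg (hφ2 y hyI).1 (hψp y hyI).1)]
    exact mul_le_mul (hφ2 y hyI).2 (hψp y hyI).2 (hψp y hyI).1 (by norm_num)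
  have h2 : ∀ n ∈ Ico 2 y, |fz s c σ a (n + 1) - fz s c σ a n| ≤
      2 ^ k * |φ (n + 1) - φ n| +
        2 * (2 ^ k * ∑ i, |1 / Real.log ((vz c σ a i (n + 1) : ℤ) : ℝ) - 1 / Real.log ((vz c σ a i n : ℤ) : ℝ)|) := by
    intro n hn
    rw [mem_Ico] at hn
    have hn0 : n ∈ Icc 2 y := by rw [mem_Icc]; omega
    have hn1 : n + 1 ∈ Icc 2 y := by rw [mem_Icc]; omega
    rw [hf, hf]
    have e : φ (n + 1) * ∏ i, (1 / Real.log ((vz c σ a i (n + 1) : ℤ) : ℝ)) -
        φ n * ∏ i, (1 / Real.log ((vz c σ a i n : ℤ) : ℝ)) =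
        (φ (n + 1) - φ n) * ∏ i, (1 / Real.log ((vz c σ a i (n + 1) : ℤ) : ℝ)) +
        φ n * (∏ i, (1 / Real.log ((vz c σ a i (n + 1) : ℤ) : ℝ)) - ∏ i, (1 / Real.log ((vz c σ a i n : ℤ) : ℝ))) := by
      ring
    rw [e]
    refine (abs_add_le _ _).trans (add_le_add ?_ ?_)
    · rw [abs_mul, abs_of_nonneg (hψp (n + 1) hn1).1, mul_comm]
      exact mul_le_mul_of_nonneg_right (hψp (n + 1) hn1).2 (abs_nonneg _)
    · rw [abs_mul, abs_of_nonneg (hφ2 n hn0).1]
      have h3 := prod_diff univ (fun i => 1 / Real.log ((vz c σ a i (n + 1) : ℤ) : ℝ))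
        (fun i => 1 / Real.log ((vz c σ a i n : ℤ) : ℝ)) (fun i _ => hψ (n + 1) hn1 i) (fun i _ => hψ n hn0 i)
      rw [card_univ, Fintype.card_fin] at h3
      exact mul_le_mul (hφ2 n hn0).2 h3 (abs_nonneg _) (by norm_num)
  have h3 := sum_le_sum h2
  rw [sum_add_distrib, ← mul_sum, ← mul_sum, ← mul_sum, sum_comm] at h3
  have h4 : ∑ i, ∑ n ∈ Ico 2 y, |1 / Real.log ((vz c σ a i (n + 1) : ℤ) : ℝ) - 1 / Real.log ((vz c σ a i n : ℤ) : ℝ)| ≤
      k * 2 := by
    refine (sum_le_sum fun i _ => hψv i).trans ?_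
    rw [sum_const, card_univ, Fintype.card_fin, nsmul_eq_mul]
  have h5 : (2 : ℝ) ^ k * ∑ n ∈ Ico 2 y, |φ (n + 1) - φ n| ≤ 2 ^ k * 2 := mul_le_mul_of_nonneg_left hφv (by positivity)
  have h6 : 2 * ((2 : ℝ) ^ k * ∑ i, ∑ n ∈ Ico 2 y, |1 / Real.log ((vz c σ a i (n + 1) : ℤ) : ℝ) -
      1 / Real.log ((vz c σ a i n : ℤ) : ℝ)|) ≤ 2 * (2 ^ k * (k * 2)) := by
    apply mul_le_mul_of_nonneg_left _ (by norm_num)
    exact mul_le_mul_of_nonneg_left h4 (by positivity)
  have h7 : (2 : ℝ) ^ (k + 2) * (k + 1) = 2 * 2 ^ k + 2 ^ k * 2 + 2 * (2 ^ k * (k * 2)) := by ring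
  rw [h7]
  linarith

/-- the weight of a prime value -/
lemma theta_fz (s : Bool) (c : Fin k → ℕ) (σ : Fin k → ℤ) (a : Fin k → ℕ) {n : ℕ} (hn : 2 ≤ n)
    (hv : ∀ i, 2 ≤ vz c σ a i n) [Decidable (AllZ s c σ a n)] :
    (wS s n * ∏ i, lamP (vz c σ a i n)) * fz s c σ a n = if AllZ s c σ a n then 1 else 0 := by
  have hl : ∀ i, (1 / 2 : ℝ) ≤ Real.log ((vz c σ a i n : ℤ) : ℝ) := fun i => log_two_le (hv i)
  have h1 : (1 / 2 : ℝ) ≤ (if s = true then Real.log n else 1) := by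
    split_ifs
    · have := log_two_le (v := (n : ℤ)) (by exact_mod_cast hn)
      rwa [Int.cast_natCast] at this
    · norm_num
  have h3 : (if s = true then Real.log n else 1) * ∏ i, Real.log ((vz c σ a i n : ℤ) : ℝ) ≠ 0 := by
    apply mul_ne_zero (by linarith)
    rw [prod_ne_zero_iff]
    intro i _
    linarith [hl i]
  have hcast : ∀ i, (((vz c σ a i n).toNat : ℕ) : ℝ) = ((vz c σ a i n : ℤ) : ℝ) := by
    intro i
    have h4 : (((vz c σ a i n).toNat : ℕ) : ℤ) = vz c σ a i n := Int.toNat_of_nonneg (by have := hv i; omega)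
    exact_mod_cast congrArg (fun t : ℤ => (t : ℝ)) h4
  have hlam : ∀ i, lamP (vz c σ a i n) = if (vz c σ a i n).toNat.Prime then Real.log ((vz c σ a i n : ℤ) : ℝ) else 0 := by
    intro i
    unfold lamP
    rw [hcast i]
  simp only [hlam]
  split_ifs with hA
  · have e1 : ∏ i, (if (vz c σ a i n).toNat.Prime then Real.log ((vz c σ a i n : ℤ) : ℝ) else 0) =
        ∏ i, Real.log ((vz c σ a i n : ℤ) : ℝ) := prod_congr rfl fun i _ => if_pos (hA.2 i)
    have e2 : wS s n = if s = true then Real.log n else 1 := by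
      unfold wS
      by_cases hs : s = true
      · rw [if_pos hs, if_pos hs, lamP_nat, if_pos (hA.1 hs)]
      · rw [if_neg hs, if_neg hs]
    rw [e1, e2]
    unfold fz
    exact mul_one_div_cancel h3
  · unfold AllZ at hA
    rw [not_and_or] at hA
    rcases hA with hA | hA
    · push Not at hA
      have e2 : wS s n = 0 := by
        unfold wS
        rw [if_pos hA.1, lamP_nat, if_neg hA.2]
      rw [e2, zero_mul, zero_mul]
    · push Not at hA
      obtain ⟨i, hi⟩ := hA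
      rw [prod_eq_zero (mem_univ i) (if_neg hi), mul_zero, zero_mul]

/-- the values at `1` and at the preceding numbers -/
lemma vz_pos_of_dom (c : Fin k → ℕ) (σ : Fin k → ℤ) (hσ : ∀ i, σ i = 1 ∨ σ i = -1) (a : Fin k → ℕ)
    (ha : ∀ i, 1 ≤ a i) (hc : ∀ i, 1 ≤ c i) (y : ℕ) (hv : ∀ i, 2 ≤ vz c σ a i y) (n : ℕ) (hn : 1 ≤ n) (hny : n ≤ y)
    (i : Fin k) : 2 ≤ vz c σ a i n := by
  have h1 := hv i
  unfold vz at h1 ⊢
  have h2 : (1 : ℤ) ≤ c i := by exact_mod_cast hc i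
  have h3 : (1 : ℤ) ≤ a i := by exact_mod_cast ha i
  have h4 : (1 : ℤ) ≤ n := by exact_mod_cast hn
  have h5 : (n : ℤ) ≤ y := by exact_mod_cast hny
  rcases hσ i with h6 | h6
  · rw [h6]; nlinarith
  · rw [h6] at h1 ⊢
    nlinarith

/-- from the weighted sums to the number of prime values -/
lemma unweightZ (s : Bool) (c : Fin k → ℕ) (σ : Fin k → ℤ) (hσ : ∀ i, σ i = 1 ∨ σ i = -1) (a : Fin k → ℕ)
    (ha : ∀ i, 1 ≤ a i) (hc : ∀ i, 1 ≤ c i) (X : ℕ) (CF T : ℝ)
    (hT : ∀ u, u ≤ X → |∑ n ∈ Icc 1 u, wS s n * ∏ i, lamP ((a i : ℤ) + σ i * (c i * n)) -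
      CF * posCount (lf c) σ a u| ≤ T) (y : ℕ)
    (hy : y ≤ X) : |(cntZ s c σ a y : ℝ) - CF * ∑ n ∈ dom c σ a y, fz s c σ a n| ≤
      1 + 2 * T * (2 ^ (k + 2) * (k + 1)) := by
  classical
  have hT0 : 0 ≤ T := (abs_nonneg _).trans (hT 0 (Nat.zero_le _))
  obtain ⟨y', hy', hdom⟩ := dom_eq c σ hσ a ha hc y
  -- the count
  have h2 : |(cntZ s c σ a y : ℝ) - (((Icc 2 y').filter (fun n => AllZ s c σ a n)).card : ℝ)| ≤ 1 := by
    have h3 : (Icc 2 y').filter (fun n => AllZ s c σ a n) ⊆ (Icc 1 y).filter (fun n => AllZ s c σ a n) := by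
      apply filter_subset_filter
      intro n hn
      rw [mem_Icc] at hn ⊢
      omega
    have h5 : (Icc 1 y).filter (fun n => AllZ s c σ a n) ⊆ insert 1 ((Icc 2 y').filter (fun n => AllZ s c σ a n)) := by
      intro n hn
      rw [mem_filter, mem_Icc] at hn
      rw [mem_insert, mem_filter]
      by_cases h6 : n = 1
      · left; exact h6
      · right
        refine ⟨?_, hn.2⟩
        rw [← hdom]
        unfold dom
        rw [mem_filter, mem_Icc]
        refine ⟨⟨by omega, hn.1.2⟩, fun i => ?_⟩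
        have h7 := (hn.2.2 i).two_le
        omega
    have h3' := card_le_card h3
    have h5' := (card_le_card h5).trans (card_insert_le _ _)
    unfold cntZ
    rw [abs_le]
    constructor
    · have : (((Icc 2 y').filter (fun n => AllZ s c σ a n)).card : ℝ) ≤
          ((Icc 1 y).filter (fun n => AllZ s c σ a n)).card := by exact_mod_cast h3'
      linarith
    · have : (((Icc 1 y).filter (fun n => AllZ s c σ a n)).card : ℝ) ≤
          (((Icc 2 y').filter (fun n => AllZ s c σ a n)).card : ℝ) + 1 := by exact_mod_cast h5'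
      linarith
  rcases Nat.lt_or_ge y' 2 with hlt | hge
  · have e0 : Icc 2 y' = ∅ := Icc_eq_empty (by omega)
    rw [hdom, e0, sum_empty, mul_zero, sub_zero]
    rw [e0, filter_empty, card_empty, Nat.cast_zero, sub_zero] at h2
    have : 0 ≤ 2 * T * (2 ^ (k + 2) * ((k : ℝ) + 1)) := by positivity
    linarith
  have hv : ∀ n ∈ Icc 2 y', ∀ i, 2 ≤ vz c σ a i n := by
    intro n hn
    rw [← hdom] at hn
    exact (mem_filter.1 hn).2
  have hvy := hv y' (by rw [mem_Icc]; omega)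
  have hpos : ∀ u, u ≤ y' → posCount (lf c) σ a u = u := by
    intro u hu
    unfold posCount
    rw [filter_true_of_mem]
    · rw [Nat.card_Icc, Nat.add_sub_cancel]
    · intro n hn i
      rw [mem_Icc] at hn
      have := vz_pos_of_dom c σ hσ a ha hc y' hvy n hn.1 (by omega) i
      rw [vl_lf]
      unfold vz at this
      omega
  set θ : ℕ → ℝ := fun n => wS s n * ∏ i, lamP (vz c σ a i n) with hθ
  have hT' : ∀ u, u ≤ y' → |∑ n ∈ Icc 1 u, θ n - CF * u| ≤ T := by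
    intro u hu
    have h3 := hT u (hu.trans (hy'.trans hy))
    rw [hpos u hu] at h3
    exact h3
  have h1 := abel_tv (fz s c σ a) (fun n => θ n - CF) (2 * T) (2 ^ (k + 2) * (k + 1)) y' hge
    (fz_tv s c σ hσ a y' hge hv) (by
      intro u hu
      rcases Nat.eq_zero_or_pos u with h0 | h0
      · rw [h0, Icc_eq_empty (by omega), sum_empty, abs_zero]
        linarith
      · have e1 : ∑ n ∈ Icc 1 u, θ n - CF * u = (θ 1 - CF) + ∑ n ∈ Icc 2 u, (θ n - CF) := by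
          have e2 : Icc 1 u = insert 1 (Icc 2 u) := by
            ext n
            rw [mem_insert, mem_Icc, mem_Icc]
            omega
          rw [e2, sum_insert (by rw [mem_Icc]; omega), sum_sub_distrib, sum_const, Nat.card_Icc, nsmul_eq_mul]
          have e3 : ((u + 1 - 2 : ℕ) : ℝ) = (u : ℝ) - 1 := by
            rw [Nat.cast_sub (by omega)]
            push_cast
            ring
          rw [e3]
          ring
        have h2 := hT' u hu
        have h3 := hT' 1 (by omega)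
        rw [Icc_self, sum_singleton, Nat.cast_one, mul_one] at h3
        rw [e1] at h2
        have h4 := abs_sub_abs_le_abs_sub (∑ n ∈ Icc 2 u, (θ n - CF)) (-(θ 1 - CF))
        rw [abs_neg, sub_neg_eq_add, add_comm (∑ n ∈ Icc 2 u, (θ n - CF))] at h4
        linarith)
  have e1 : ∑ n ∈ Icc 2 y', (θ n - CF) * fz s c σ a n =
      (((Icc 2 y').filter (fun n => AllZ s c σ a n)).card : ℝ) - CF * ∑ n ∈ Icc 2 y', fz s c σ a n := by
    rw [card_eq_sum_ones, Nat.cast_sum, sum_filter, mul_sum, ← sum_sub_distrib]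
    apply sum_congr rfl
    intro n hn
    have hn' := hn
    rw [mem_Icc] at hn
    rw [sub_mul, hθ]
    simp only
    rw [theta_fz s c σ a hn.1 (hv n hn')]
    push_cast
    ring
  rw [e1] at h1
  rw [hdom]
  have h5 := abs_add_le ((cntZ s c σ a y : ℝ) - (((Icc 2 y').filter (fun n => AllZ s c σ a n)).card : ℝ))
    ((((Icc 2 y').filter (fun n => AllZ s c σ a n)).card : ℝ) - CF * ∑ n ∈ Icc 2 y', fz s c σ a n)
  rw [sub_add_sub_cancel] at h5
  linarith

end Pool.Agent.T9h57.TG
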